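import Pool.Agent.TH5.ST.Transfer

/-!
# If the slope trace is injective, Tate classes are generated by pairings
-/

set_option autoImplicit false
set_option linter.unusedSectionVars false

namespace Pool.Agent.TH5.ST

open NumberField NumberField.IsCMField Pool.Agent.H485R3 Pool.Agent.H485R3.Hodge
  Pool.Agent.H925R2 Pool.Agent.H485R3.Exact

section

variable {I : Type} [Fintype I] {K : I → Type} [∀ i, Field (K i)]
  [∀ i, NumberField (K i)] [∀ i, IsCMField (K i)]
  {L : Type} [Field L] [CharZero L] [Algebra ℚ L] [FiniteDimensional ℚ L] [IsGalois ℚ L]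

open Classical in
theorem sum_fiber {ι R : Type*} [Fintype ι] [CommRing R] (X : ι → Σ i, (K i →ₐ[ℚ] L))
    (G : (Σ i, (K i →ₐ[ℚ] L)) → R) :
    ∑ k, G (X k) = ∑ i, ∑ τ : K i →ₐ[ℚ] L,
      ((Finset.univ.filter (fun k => X k = ⟨i, τ⟩)).card : R) * G ⟨i, τ⟩ := by
  rw [← Finset.sum_fiberwise (s := Finset.univ) (g := X)]
  rw [Fintype.sum_sigma]
  refine Finset.sum_congr rfl fun i _ => Finset.sum_congr rfl fun τ _ => ?_
  rw [← nsmul_eq_mul, ← Finset.sum_const]
  refine Finset.sum_congr rfl fun k hk => ?_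
  rw [(Finset.mem_filter.1 hk).2]

end

theorem generate_of_injective (p : ℕ) [Fact p.Prime] {I : Type} [Fintype I] (K : I → Type)
    [∀ i, Field (K i)] [∀ i, NumberField (K i)] [∀ i, IsCMField (K i)] (a : I → ℕ)
    (π : ∀ i, K i) (v : ∀ i, (K i →+* PadicAlgCl p) → ℚ)
    (hW : ∀ i, IsWeil p (a i) (π i) (v i)) (hinj : SlopeTraceInjective p K v) :
    PairingsGenerate π (fun i => p ^ a i) := by
  classical
  intro Ω _ _ _ V _ _ _ F hF n t r hr cc hcc φ hφ
  have hp : p.Prime := Fact.out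
  have hppos : (0 : ℝ) < p := by exact_mod_cast hp.pos
  have hlog : 0 < Real.log p := Real.log_pos (by exact_mod_cast hp.one_lt)
  obtain ⟨L, _, _, _, _, _, ι, c, hc, hcs, hlift⟩ := exists_common_conj K
  let e₀ : L →ₐ[ℚ] PadicAlgCl p := IsAlgClosed.lift
  let j : L →ₐ[ℚ] Ω := IsAlgClosed.lift
  have hs : ∀ i, Nonempty (K i →ₐ[ℚ] L) := by
    intro i
    obtain ⟨σ', _⟩ := hlift ι i (IsAlgClosed.lift : K i →ₐ[ℚ] ℂ)
    exact ⟨σ'⟩
  have s : ∀ i, K i →ₐ[ℚ] L := fun i => Classical.choice (hs i)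
  have hinjL : ∀ z : ∀ i, K i, (∀ i, complexConj (K i) (z i) = - z i) →
      ∑ i, ∑ τ : K i →ₐ[ℚ] L, (cw a v e₀ i τ : L) * τ (z i) = 0 → ∀ i, z i = 0 := by
    intro z hodd h0
    apply hinj z hodd
    have h1 := sum_cw (a := a) (v := v) c hcs hlift e₀ z hodd
    rw [h0, map_zero] at h1
    exact (mul_eq_zero.1 h1.symm).resolve_left two_ne_zero
  have hp0 : (p : Ω) ≠ 0 := by exact_mod_cast hp.ne_zero
  have hπ0 : ∀ i, π i ≠ 0 := fun i => (hW i).ne_zero
  have hmul : ∀ i, π i * complexConj (K i) (π i) = (p : K i) ^ a i := fun i =>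
    mul_conj_eq p (π i) (a i) (hW i).norm_sq
  have hdiv : ∀ i (σ : K i →+* Ω), ((p ^ a i : ℕ) : Ω) / σ (π i) =
      σ (complexConj (K i) (π i)) := by
    intro i σ
    rw [div_eq_iff ((map_ne_zero σ).2 (hπ0 i)), ← map_mul, mul_comm, hmul]
    push_cast
    rw [map_pow, map_natCast]
  have hmain := multilinear_mixed V F (fun i => ((p ^ a i : ℕ) : Ω))
    (fun i => {μ : Ω | ∃ σ : K i →+* Ω, μ = σ (π i)})
    (by
      rintro i _ ⟨σ, rfl⟩
      refine ⟨(map_ne_zero σ).2 (hπ0 i), ?_⟩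
      rw [hdiv]
      intro h
      exact (hW i).conj_ne (σ.injective h))
    (by
      intro i
      push_cast
      exact pow_ne_zero _ hp0)
    (by
      intro i
      rw [eq_top_iff, ← hF i]
      apply Submodule.span_mono
      rintro x ⟨σ, hσ⟩
      exact ⟨σ (π i), ⟨σ, rfl⟩, hσ⟩)
    (by
      rintro i _ ⟨σ, rfl⟩
      exact ⟨σ.comp (complexConj (K i) : K i →+* K i), hdiv i σ⟩)
    t r cc ?_ φ hφ
  · exact hmain
  intro y hy hprod i z hz
  -- lift the eigenvalues to `L`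
  have hy' : ∀ k, ∃ W : K (t k) →ₐ[ℚ] L, j (W (π (t k))) = y k := by
    intro k
    obtain ⟨σ, hσ⟩ := hy k
    obtain ⟨σ', hσ'⟩ := hlift j (t k) σ.toRatAlgHom
    refine ⟨σ', ?_⟩
    rw [hσ]
    exact DFunLike.congr_fun hσ' (π (t k))
  choose W hWy using hy'
  obtain ⟨τ₀, hτ₀⟩ : ∃ τ : K i →ₐ[ℚ] L, j (τ (π i)) = z := by
    obtain ⟨σ, hσ⟩ := hz
    obtain ⟨σ', hσ'⟩ := hlift j i σ.toRatAlgHom
    refine ⟨σ', ?_⟩
    rw [hσ]
    exact DFunLike.congr_fun hσ' (π i)
  have hrel : (∏ k, W k (π (t k))) ^ (2 * r) = (∏ k, ((p : L) ^ a (t k))) ^ r := by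
    apply j.toRingHom.injective
    change j ((∏ k, W k (π (t k))) ^ (2 * r)) = j ((∏ k, ((p : L) ^ a (t k))) ^ r)
    rw [map_pow, map_prod, map_pow, map_prod]
    simp only [hWy, map_pow, map_natCast]
    have h1 : ∏ k, ((p : Ω) ^ a (t k)) = cc ^ 2 := by
      rw [hcc]
      push_cast
      rfl
    rw [h1, mul_comm 2 r, pow_mul, hprod, ← pow_mul, ← pow_mul, mul_comm]
  -- the balance
  have hbal : ∀ g : L ≃ₐ[ℚ] L, ∑ k, cw a v e₀ (t k) (act g (W k)) = 0 := by
    intro g
    have h1 : ∑ k, ldev p (a (t k)) (e₀ (act g (W k) (π (t k)))) = 0 := by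
      have h2 := congrArg (fun x => Real.log ‖e₀ (g x)‖) hrel
      simp only [map_pow, map_prod, map_natCast, norm_pow, norm_prod] at h2
      rw [Real.log_pow, Real.log_pow, Real.log_prod, Real.log_prod] at h2
      · have h3 : ∀ k, Real.log (‖(p : PadicAlgCl p)‖ ^ a (t k)) = - (a (t k) * Real.log p) := by
          intro k
          rw [Real.log_pow, norm_p_padic, Real.log_inv]
          ring
        simp only [h3] at h2
        rw [Finset.sum_neg_distrib] at h2
        unfold ldev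
        rw [Finset.sum_add_distrib, ← Finset.mul_sum]
        have h4 : (r : ℝ) ≠ 0 := by exact_mod_cast hr.ne'
        have h5 : (r : ℝ) * (2 * ∑ k, Real.log ‖e₀ (act g (W k) (π (t k)))‖ +
            ∑ k, (a (t k) : ℝ) * Real.log p) = 0 := by
          have h6 : ∀ k, Real.log ‖e₀ (act g (W k) (π (t k)))‖ =
              Real.log ‖e₀ (g (W k (π (t k))))‖ := fun k => rfl
          simp only [h6]
          push_cast at h2
          linarith
        exact (mul_eq_zero.1 h5).resolve_left h4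
      · intro k _
        rw [norm_p_padic]
        positivity
      · intro k _
        exact norm_ne_zero_iff.2 ((map_ne_zero e₀).2 ((map_ne_zero g).2
          ((map_ne_zero (W k)).2 (hπ0 _))))
    simp only [ldev_cw hW e₀] at h1
    rw [← Finset.sum_mul, Finset.sum_neg_distrib] at h1
    have h2 := (mul_eq_zero.1 h1).resolve_right hlog.ne'
    have h3 : ((∑ k, cw a v e₀ (t k) (act g (W k)) : ℚ) : ℝ) = 0 := by
      push_cast
      linarith
    exact_mod_cast h3
  let X : Fin n → Σ i, (K i →ₐ[ℚ] L) := fun k => ⟨t k, W k⟩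
  let f : ∀ i, (K i →ₐ[ℚ] L) → ℕ := fun i τ => (Finset.univ.filter (fun k => X k = ⟨i, τ⟩)).card
  have hfbal : ∀ g : L ≃ₐ[ℚ] L,
      ∑ i, ∑ τ : K i →ₐ[ℚ] L, (f i τ : ℚ) * cw a v e₀ i (act g τ) = 0 := by
    intro g
    have h1 := sum_fiber X (fun x => cw a v e₀ x.1 (act g x.2))
    rw [← h1]
    exact hbal g
  have hcc' : ∀ i (τ : K i →ₐ[ℚ] L), act c (act c τ) = τ := by
    intro i τ
    ext y
    change c (c (τ y)) = τ y
    rw [hcs, hcs, complexConj_apply_apply]
  have hcg : ∀ i (g : L ≃ₐ[ℚ] L) (τ : K i →ₐ[ℚ] L), act g (act c τ) = act c (act g τ) := by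
    intro i g τ
    ext y
    change g (c (τ y)) = c (g (τ y))
    rw [hcs]
    exact (hcs i (act g τ) y).symm
  have hFz := eq_zero_of_injective c hcs s (cw a v e₀) hinjL
    (fun i τ => (f i τ : ℚ) - f i (act c τ))
    (by
      intro i τ
      simp only [hcc']
      ring)
    (by
      intro g
      have h1 : ∀ i, ∑ τ : K i →ₐ[ℚ] L, (f i (act c τ) : ℚ) * cw a v e₀ i (act g τ) =
          - ∑ τ : K i →ₐ[ℚ] L, (f i τ : ℚ) * cw a v e₀ i (act g τ) := by
        intro i
        rw [← Finset.sum_neg_distrib]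
        refine Fintype.sum_equiv ⟨act c, act c, hcc' i, hcc' i⟩ _ _ fun τ => ?_
        change (f i (act c τ) : ℚ) * cw a v e₀ i (act g τ) =
          - ((f i (act c τ) : ℚ) * cw a v e₀ i (act g (act c τ)))
        rw [hcg, cw_conj hW c hcs e₀]
        ring
      simp only [sub_mul, Finset.sum_sub_distrib]
      simp only [h1]
      rw [Finset.sum_neg_distrib, hfbal g]
      ring)
  have hff : f i τ₀ = f i (act c τ₀) := by
    have h1 := hFz i τ₀
    have h2 : (f i τ₀ : ℚ) = f i (act c τ₀) := by linarith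
    exact_mod_cast h2
  -- conclusion
  have hcard : ∀ τ : K i →ₐ[ℚ] L, Nat.card {k // t k = i ∧ y k = j (τ (π i))} = f i τ := by
    intro τ
    rw [Nat.card_eq_fintype_card, Fintype.card_subtype]
    congr 1
    ext k
    simp only [Finset.mem_filter, Finset.mem_univ, true_and]
    constructor
    · rintro ⟨h1, h2⟩
      subst h1
      rw [← hWy k] at h2
      have h3 : W k = τ := (hW (t k)).emb_ext (j.toRingHom.injective h2)
      simp only [X, h3]
    · intro h
      have h1 : t k = i := congrArg Sigma.fst h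
      subst h1
      refine ⟨rfl, ?_⟩
      have h2 : W k = τ := eq_of_heq (Sigma.mk.inj h).2
      rw [← hWy k, h2]
  have hq : ((p ^ a i : ℕ) : Ω) / z = j (act c τ₀ (π i)) := by
    rw [← hτ₀]
    have h1 := hdiv i (j.toRingHom.comp τ₀.toRingHom)
    change ((p ^ a i : ℕ) : Ω) / j (τ₀ (π i)) = j (τ₀ (complexConj (K i) (π i))) at h1
    rw [h1, ← hcs]
    rfl
  change Nat.card {k // t k = i ∧ y k = z} = Nat.card {k // t k = i ∧ y k = ((p ^ a i : ℕ) : Ω) / z}
  rw [hq, hcard, ← hτ₀, hcard]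
  exact hff

end Pool.Agent.TH5.ST
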