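import Pool.Agent.TH5.ST.SplitDefs
import Pool.Agent.TH5.ST.Generate

/-!
# Tate classes split between the groups if and only if the trace spaces are independent
-/

set_option autoImplicit false
set_option linter.unusedSectionVars false

namespace Pool.Agent.TH5.ST

open NumberField NumberField.IsCMField Pool.Agent.H485R3 Pool.Agent.H485R3.Hodge
  Pool.Agent.H925R2 Pool.Agent.H485R3.Exact

open Classical in
/-- sums over the variables of one group -/
theorem sum_fiber_group {I J R : Type*} {K : J → Type} [Fintype J] [∀ j, Field (K j)]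
    [∀ j, NumberField (K j)] {L : Type} [Field L] [CharZero L] [Algebra ℚ L]
    [FiniteDimensional ℚ L] {κ : Type*} [Fintype κ] [CommRing R]
    (γ : J → I) (i : I) (X : κ → Σ j, (K j →ₐ[ℚ] L)) (f : ∀ j, (K j →ₐ[ℚ] L) → R)
    (hX : ∀ G : (Σ j, (K j →ₐ[ℚ] L)) → R, ∑ k, G (X k) = ∑ j, ∑ τ : K j →ₐ[ℚ] L,
      f j τ * G ⟨j, τ⟩)
    (G : (Σ j, (K j →ₐ[ℚ] L)) → R) :
    ∑ k : {k // γ (X k).1 = i}, G (X k) = ∑ j with γ j = i, ∑ τ : K j →ₐ[ℚ] L,
      f j τ * G ⟨j, τ⟩ := by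
  have h1 := hX (fun x => if γ x.1 = i then G x else 0)
  have h2 : ∑ k, (if γ (X k).1 = i then G (X k) else 0) =
      ∑ k : {k // γ (X k).1 = i}, G (X k) := by
    rw [← Finset.sum_filter]
    exact Finset.sum_subtype _ (fun k => by simp) _
  rw [← h2, h1, Finset.sum_filter]
  refine Finset.sum_congr rfl fun j _ => ?_
  by_cases hj : γ j = i
  · simp [hj]
  · simp [hj]

theorem tateSplits_of_independent (p : ℕ) [Fact p.Prime] {I J : Type} [Fintype I] [Fintype J]
    (K : J → Type) [∀ j, Field (K j)] [∀ j, NumberField (K j)] [∀ j, IsCMField (K j)]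
    (a : J → ℕ) (π : ∀ j, K j) (v : ∀ j, (K j →+* PadicAlgCl p) → ℚ)
    (hW : ∀ j, IsWeilIn p (a j) (π j) (v j)) (γ : J → I)
    (hind : TraceSpacesIndependent p K v γ) :
    TateSplits π (fun j => p ^ a j) γ := by
  classical
  intro Ω _ _ _ V _ _ _ F hF n t φ hφ
  obtain ⟨s₀, hs₀, cc, hcc, hφ⟩ := hφ
  obtain ⟨L, _, _, _, _, _, ι, c, hc, hcs, hlift⟩ := exists_common_conj K
  let e₀ : L →ₐ[ℚ] PadicAlgCl p := IsAlgClosed.lift
  let jj : L →ₐ[ℚ] Ω := IsAlgClosed.lift
  have hs : ∀ j, Nonempty (K j →ₐ[ℚ] L) := by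
    intro j
    obtain ⟨σ', _⟩ := hlift ι j (IsAlgClosed.lift : K j →ₐ[ℚ] ℂ)
    exact ⟨σ'⟩
  have s : ∀ j, K j →ₐ[ℚ] L := fun j => Classical.choice (hs j)
  have hindL : ∀ z : ∀ j, K j, (∀ j, complexConj (K j) (z j) = - z j) →
      ∑ j, ∑ τ : K j →ₐ[ℚ] L, (cw a v e₀ j τ : L) * τ (z j) = 0 →
      ∀ i, ∑ j with γ j = i, ∑ τ : K j →ₐ[ℚ] L, (cw a v e₀ j τ : L) * τ (z j) = 0 := by
    intro z hodd h0 i
    have h1 := sum_cw' (a := a) (v := v) c hcs hlift e₀ Finset.univ z hodd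
    rw [h0, map_zero] at h1
    have h2 : ∑ j, ∑ τ : K j →+* PadicAlgCl p, (v j τ : PadicAlgCl p) * τ (z j) = 0 :=
      (mul_eq_zero.1 h1.symm).resolve_left two_ne_zero
    have h5 := Finset.sum_fiberwise (s := (Finset.univ : Finset J)) (g := γ)
      (f := fun j => ∑ τ : K j →+* PadicAlgCl p, (v j τ : PadicAlgCl p) * τ (z j))
    have h3 : ∑ j with γ j = i, ∑ τ : K j →+* PadicAlgCl p,
        (v j τ : PadicAlgCl p) * τ (z j) = 0 :=
      hind (fun i => ∑ j with γ j = i, ∑ τ : K j →+* PadicAlgCl p,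
        (v j τ : PadicAlgCl p) * τ (z j)) (fun i => ⟨z, hodd, rfl⟩) (h5.trans h2) i
    have h4 := sum_cw' (a := a) (v := v) c hcs hlift e₀
      (Finset.univ.filter (fun j => γ j = i)) z hodd
    apply e₀.toRingHom.injective
    change e₀ _ = e₀ 0
    rw [h4, map_zero, h3, mul_zero]
  have hp : p.Prime := Fact.out
  -- eigenbases
  choose d b μ hμE hμ using fun j => Pool.Agent.H925R2.exists_eigenbasis (F j)
    {μ : Ω | ∃ σ : K j →+* Ω, μ = σ (π j)} (by
      rw [eq_top_iff, ← hF j]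
      apply Submodule.span_mono
      rintro x ⟨σ, hσ⟩
      exact ⟨σ (π j), ⟨σ, rfl⟩, hσ⟩)
  let cp : (∀ k, Fin (d (t k))) → MultilinearMap Ω (fun k => V (t k)) Ω := fun B =>
    (MultilinearMap.mkPiAlgebra Ω (Fin n) Ω).compLinearMap (fun k => (b (t k)).coord (B k))
  have hcp : ∀ B v, cp B v = ∏ k, (b (t k)).coord (B k) (v k) := by
    intro B v
    change (MultilinearMap.mkPiAlgebra Ω (Fin n) Ω) (fun k => (b (t k)).coord (B k) (v k)) = _
    rw [MultilinearMap.mkPiAlgebra_apply]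
  have hexp : φ = ∑ B : (∀ k, Fin (d (t k))), φ (fun k => b (t k) (B k)) • cp B := by
    apply Module.Basis.ext_multilinear (fun k => b (t k))
    intro B
    rw [sum_apply, Finset.sum_eq_single B]
    · rw [smul_apply, hcp]
      have h1 : ∏ k, (b (t k)).coord (B k) (b (t k) (B k)) = 1 := by
        apply Finset.prod_eq_one
        intro k _
        simp
      rw [h1, smul_eq_mul, mul_one]
    · intro B' _ hB
      rw [smul_apply, hcp]
      obtain ⟨k, hk⟩ := Function.ne_iff.1 hB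
      have h1 : ∏ k, (b (t k)).coord (B' k) (b (t k) (B k)) = 0 := by
        apply Finset.prod_eq_zero (Finset.mem_univ k)
        rw [Module.Basis.coord_apply, Module.Basis.repr_self, Finsupp.single_apply,
          if_neg (fun h => hk h.symm)]
      rw [h1, smul_zero]
    · intro h
      exact absurd (Finset.mem_univ B) h
  rw [hexp]
  refine Submodule.sum_mem _ fun B _ => ?_
  by_cases h0 : φ (fun k => b (t k) (B k)) = 0
  · rw [h0, zero_smul]
    exact Submodule.zero_mem _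
  refine Submodule.smul_mem _ _ (Submodule.subset_span ?_)
  have hFs : ∀ (m : ℕ) i j, (F i ^ m) (b i j) = μ i j ^ m • b i j := by
    intro m i j
    induction m with
    | zero => simp
    | succ m ih => rw [pow_succ', Module.End.mul_apply, ih, map_smul, hμ, smul_smul, pow_succ]
  have hprod : (∏ k, μ (t k) (B k)) ^ s₀ = cc ^ s₀ := by
    have h1 := hφ (fun k => b (t k) (B k))
    have h2 : (fun k => (F (t k) ^ s₀) (b (t k) (B k))) =
        fun k => (μ (t k) (B k) ^ s₀) • b (t k) (B k) :=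
      funext fun k => hFs s₀ (t k) (B k)
    rw [h2, MultilinearMap.map_smul_univ, smul_eq_mul, Finset.prod_pow] at h1
    exact mul_right_cancel₀ h0 h1
  -- lift the eigenvalues to `L`
  have hy' : ∀ k, ∃ W : K (t k) →ₐ[ℚ] L, jj (W (π (t k))) = μ (t k) (B k) := by
    intro k
    obtain ⟨σ, hσ⟩ := hμE (t k) (B k)
    obtain ⟨σ', hσ'⟩ := hlift jj (t k) σ.toRatAlgHom
    refine ⟨σ', ?_⟩
    rw [hσ]
    exact DFunLike.congr_fun hσ' (π (t k))
  choose W hWy using hy'
  have hrel : (∏ k, W k (π (t k))) ^ (2 * s₀) = (∏ k, ((p : L) ^ a (t k))) ^ s₀ := by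
    apply jj.toRingHom.injective
    change jj ((∏ k, W k (π (t k))) ^ (2 * s₀)) = jj ((∏ k, ((p : L) ^ a (t k))) ^ s₀)
    rw [map_pow, map_prod, map_pow, map_prod]
    simp only [hWy, map_pow, map_natCast]
    have h1 : ∏ k, ((p : Ω) ^ a (t k)) = cc ^ 2 := by
      rw [hcc]
      push_cast
      rfl
    rw [h1, mul_comm 2 s₀, pow_mul, hprod, ← pow_mul, ← pow_mul, mul_comm]
  -- the balance
  have hbal : ∀ g : L ≃ₐ[ℚ] L, ∑ k, cw a v e₀ (t k) (act g (W k)) = 0 :=
    balanced_of_rel hW e₀ t W s₀ hs₀ hrel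
  let X : Fin n → Σ j, (K j →ₐ[ℚ] L) := fun k => ⟨t k, W k⟩
  let f : ∀ j, (K j →ₐ[ℚ] L) → ℕ := fun j τ => (Finset.univ.filter (fun k => X k = ⟨j, τ⟩)).card
  have hfib : ∀ G : (Σ j, (K j →ₐ[ℚ] L)) → ℚ, ∑ k, G (X k) = ∑ j, ∑ τ : K j →ₐ[ℚ] L,
      (f j τ : ℚ) * G ⟨j, τ⟩ := by
    intro G
    exact sum_fiber X G
  have hfbal : ∀ g : L ≃ₐ[ℚ] L,
      ∑ j, ∑ τ : K j →ₐ[ℚ] L, (f j τ : ℚ) * cw a v e₀ j (act g τ) = 0 := by
    intro g
    have h1 := hfib (fun x => cw a v e₀ x.1 (act g x.2))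
    rw [← h1]
    exact hbal g
  have hcc' : ∀ j (τ : K j →ₐ[ℚ] L), act c (act c τ) = τ := by
    intro j τ
    ext y
    change c (c (τ y)) = τ y
    rw [hcs, hcs, complexConj_apply_apply]
  have hcg : ∀ j (g : L ≃ₐ[ℚ] L) (τ : K j →ₐ[ℚ] L), act g (act c τ) = act c (act g τ) := by
    intro j g τ
    ext y
    change g (c (τ y)) = c (g (τ y))
    rw [hcs]
    exact (hcs j (act g τ) y).symm
  have h2f : ∀ (A : Finset J) (g : L ≃ₐ[ℚ] L),
      ∑ j ∈ A, ∑ τ : K j →ₐ[ℚ] L, ((f j τ : ℚ) - f j (act c τ)) * cw a v e₀ j (act g τ) =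
        2 * ∑ j ∈ A, ∑ τ : K j →ₐ[ℚ] L, (f j τ : ℚ) * cw a v e₀ j (act g τ) := by
    intro A g
    have h1 : ∀ j, ∑ τ : K j →ₐ[ℚ] L, (f j (act c τ) : ℚ) * cw a v e₀ j (act g τ) =
        - ∑ τ : K j →ₐ[ℚ] L, (f j τ : ℚ) * cw a v e₀ j (act g τ) := by
      intro j
      rw [← Finset.sum_neg_distrib]
      refine Fintype.sum_equiv ⟨act c, act c, hcc' j, hcc' j⟩ _ _ fun τ => ?_
      change (f j (act c τ) : ℚ) * cw a v e₀ j (act g τ) =
        - ((f j (act c τ) : ℚ) * cw a v e₀ j (act g (act c τ)))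
      rw [hcg, cw_conj' hW c hcs e₀]
      ring
    simp only [sub_mul, Finset.sum_sub_distrib]
    simp only [h1]
    rw [Finset.sum_neg_distrib]
    ring
  have hsplit := split_of_independent c hcs s (cw a v e₀) γ hindL
    (fun j τ => (f j τ : ℚ) - f j (act c τ))
    (by
      intro j τ
      simp only [hcc']
      ring)
    (by
      intro g
      rw [h2f, hfbal g, mul_zero])
  have hgroup : ∀ (i : I) (g : L ≃ₐ[ℚ] L),
      ∑ k : {k // γ (t k) = i}, cw a v e₀ (t k) (act g (W k)) = 0 := by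
    intro i g
    have h1 := sum_fiber_group γ i X (fun j τ => (f j τ : ℚ)) hfib
      (fun x => cw a v e₀ x.1 (act g x.2))
    have h3 := hsplit i g
    rw [h2f] at h3
    have h4 : ∑ j with γ j = i, ∑ τ : K j →ₐ[ℚ] L, (f j τ : ℚ) * cw a v e₀ j (act g τ) = 0 :=
      (mul_eq_zero.1 h3).resolve_left two_ne_zero
    rw [h4] at h1
    exact h1
  have hrelG : ∀ i : I, ∃ r : ℕ, 0 < r ∧
      (∏ k : {k // γ (t k) = i}, W k (π (t k))) ^ (2 * r) =
        (∏ k : {k // γ (t k) = i}, ((p : L) ^ a (t k))) ^ r := fun i =>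
    rel_of_balanced hW e₀ (fun k : {k // γ (t k) = i} => t k)
      (fun k : {k // γ (t k) = i} => W k) (hgroup i)
  have hcoord : ∀ (m : ℕ) i j x, (b i).coord j ((F i ^ m) x) = μ i j ^ m * (b i).coord j x := by
    intro m i j x
    have h1 : ((b i).coord j).comp (F i ^ m) = μ i j ^ m • (b i).coord j := by
      apply (b i).ext
      intro l
      rw [LinearMap.comp_apply, hFs, map_smul, LinearMap.smul_apply, Module.Basis.coord_apply,
        Module.Basis.repr_self, Finsupp.single_apply]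
      by_cases hl : l = j
      · subst hl
        rfl
      · rw [if_neg hl, smul_zero, smul_zero]
    exact LinearMap.congr_fun h1 x
  refine ⟨fun i => (MultilinearMap.mkPiAlgebra Ω {k // γ (t k) = i} Ω).compLinearMap
    (fun k => (b (t k)).coord (B k)), ?_, ?_⟩
  · intro i
    obtain ⟨r, hr, hri⟩ := hrelG i
    obtain ⟨c', hc'⟩ : ∃ c' : Ω, c' ^ 2 = ∏ k : {k // γ (t k) = i}, ((p ^ a (t k) : ℕ) : Ω) :=
      IsAlgClosed.exists_pow_nat_eq _ two_pos
    refine ⟨2 * r, by omega, c', hc', ?_⟩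
    intro u
    rw [MultilinearMap.compLinearMap_apply, MultilinearMap.compLinearMap_apply,
      MultilinearMap.mkPiAlgebra_apply, MultilinearMap.mkPiAlgebra_apply]
    simp only [hcoord]
    rw [Finset.prod_mul_distrib, Finset.prod_pow]
    congr 1
    have h1 := congrArg jj hri
    rw [map_pow, map_prod, map_pow, map_prod] at h1
    simp only [hWy, map_pow, map_natCast] at h1
    rw [h1, pow_mul, hc']
    push_cast
    rfl
  · intro u
    rw [hcp]
    have h1 := Fintype.prod_fiberwise (fun k => γ (t k))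
      (fun k => (b (t k)).coord (B k) (u k))
    rw [← h1]
    refine Finset.prod_congr rfl fun i _ => ?_
    rw [MultilinearMap.compLinearMap_apply, MultilinearMap.mkPiAlgebra_apply]

theorem independent_of_tateSplits (p : ℕ) [Fact p.Prime] {I J : Type} [Fintype I] [Fintype J]
    (K : J → Type) [∀ j, Field (K j)] [∀ j, NumberField (K j)] [∀ j, IsCMField (K j)]
    (a : J → ℕ) (π : ∀ j, K j) (v : ∀ j, (K j →+* PadicAlgCl p) → ℚ)
    (hW : ∀ j, IsWeilIn p (a j) (π j) (v j)) (γ : J → I)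
    (hsp : TateSplits π (fun j => p ^ a j) γ) :
    TraceSpacesIndependent p K v γ := by
  classical
  intro x hx hsum i₀
  by_contra hne
  have hp : p.Prime := Fact.out
  choose zz hzodd hzx using hx
  let z : ∀ j, K j := fun j => zz (γ j) j
  have hodd : ∀ j, complexConj (K j) (z j) = - z j := fun j => hzodd (γ j) j
  have hz : ∀ i, ∑ j with γ j = i, ∑ τ : K j →+* PadicAlgCl p,
      (v j τ : PadicAlgCl p) * τ (z j) = x i := by
    intro i
    rw [hzx i]
    have h1 : ∀ j ∈ Finset.univ.filter (fun j => γ j = i),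
        ∑ τ : K j →+* PadicAlgCl p, (v j τ : PadicAlgCl p) * τ (z j) =
        ∑ τ : K j →+* PadicAlgCl p, (v j τ : PadicAlgCl p) * τ (zz i j) := by
      intro j hj
      have h2 : γ j = i := (Finset.mem_filter.1 hj).2
      simp only [z]
      rw [h2]
    rw [Finset.sum_congr rfl h1]
  obtain ⟨L, _, _, _, _, _, ι, c, hc, hcs, hlift⟩ := exists_common_conj K
  let e₀ : L →ₐ[ℚ] PadicAlgCl p := IsAlgClosed.lift
  have h0 : ∑ j, ∑ τ : K j →ₐ[ℚ] L, (cw a v e₀ j τ : L) * τ (z j) = 0 := by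
    apply e₀.toRingHom.injective
    change e₀ _ = e₀ 0
    rw [sum_cw' (a := a) (v := v) c hcs hlift e₀ Finset.univ z hodd, map_zero]
    have h1 := Finset.sum_fiberwise (s := (Finset.univ : Finset J)) (g := γ)
      (f := fun j => ∑ τ : K j →+* PadicAlgCl p, (v j τ : PadicAlgCl p) * τ (z j))
    rw [← h1, Finset.sum_congr rfl fun i _ => hz i, hsum, mul_zero]
  have h1 : ∑ j with γ j = i₀, ∑ τ : K j →ₐ[ℚ] L, (cw a v e₀ j τ : L) * τ (z j) ≠ 0 := by
    intro h
    have h2 := sum_cw' (a := a) (v := v) c hcs hlift e₀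
      (Finset.univ.filter (fun j => γ j = i₀)) z hodd
    rw [h, map_zero, hz] at h2
    exact hne ((mul_eq_zero.1 h2.symm).resolve_left two_ne_zero)
  obtain ⟨f, hf, hf1⟩ := exists_fun_of_dependent c hcs (cw a v e₀) γ
    (fun j τ => cw_conj' hW c hcs e₀ j τ) z hodd h0 i₀ h1
  let S := Σ j, (K j →ₐ[ℚ] L)
  let κ := Σ x : S, Fin (f x.1 x.2)
  let T : κ → J := fun k => k.1.1
  let σκ : ∀ k : κ, K (T k) →ₐ[ℚ] L := fun k => k.1.2
  let n := Fintype.card κ
  let e : Fin n ≃ κ := (Fintype.equivFin κ).symm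
  let t : Fin n → J := fun k => T (e k)
  let X : Fin n → Σ j, (K j →ₐ[ℚ] L) := fun k => (e k).1
  have hfib : ∀ G : (Σ j, (K j →ₐ[ℚ] L)) → ℚ, ∑ k, G (X k) = ∑ j, ∑ τ : K j →ₐ[ℚ] L,
      (f j τ : ℚ) * G ⟨j, τ⟩ := by
    intro G
    simp only [X]
    rw [Equiv.sum_comp e (fun k : κ => G k.1), Fintype.sum_sigma, Fintype.sum_sigma]
    refine Finset.sum_congr rfl fun i _ => Finset.sum_congr rfl fun τ _ => ?_
    change ∑ _y : Fin (f i τ), G ⟨i, τ⟩ = _
    rw [Finset.sum_const, Finset.card_univ, Fintype.card_fin, nsmul_eq_mul]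
  have hbal : ∀ g : L ≃ₐ[ℚ] L, ∑ k : Fin n, cw a v e₀ (t k) (act g (σκ (e k))) = 0 := by
    intro g
    have h2 := hfib (fun x => cw a v e₀ x.1 (act g x.2))
    rw [hf g] at h2
    exact h2
  obtain ⟨r, hr, hrel⟩ := rel_of_balanced hW e₀ t (fun k => σκ (e k)) hbal
  obtain ⟨c₀, hc₀⟩ : ∃ c₀ : ℂ, c₀ ^ 2 = ∏ k, (((p ^ a (t k) : ℕ)) : ℂ) :=
    IsAlgClosed.exists_pow_nat_eq _ two_pos
  let V : J → Type := fun j => (K j →+* ℂ) → ℂ
  let F : ∀ j, V j →ₗ[ℂ] V j := fun j => LinearMap.pi fun σ => (σ (π j)) • LinearMap.proj σ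
  have hFapp : ∀ j (v : V j) (σ : K j →+* ℂ), F j v σ = σ (π j) * v σ := fun j v σ => rfl
  have hFpow : ∀ j (m : ℕ) (v : V j) (σ : K j →+* ℂ), (F j ^ m) v σ = σ (π j) ^ m * v σ := by
    intro j m
    induction m with
    | zero =>
      intro v σ
      rw [pow_zero, pow_zero, one_mul]
      rfl
    | succ m ih =>
      intro v σ
      rw [pow_succ, Module.End.mul_apply, ih, hFapp, pow_succ]
      ring
  have hFspan : ∀ j, Submodule.span ℂ {v : V j | ∃ σ : K j →+* ℂ, F j v = σ (π j) • v} = ⊤ := by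
    intro j
    rw [eq_top_iff]
    intro v _
    have h1 : v = ∑ σ : K j →+* ℂ, v σ • (Pi.single σ (1 : ℂ) : V j) := by
      funext τ
      rw [Finset.sum_apply, Finset.sum_eq_single τ]
      · simp
      · intro b _ hb
        simp [Pi.single_eq_of_ne (Ne.symm hb)]
      · intro h
        exact absurd (Finset.mem_univ _) h
    rw [h1]
    refine Submodule.sum_mem _ fun σ _ => Submodule.smul_mem _ _ (Submodule.subset_span ⟨σ, ?_⟩)
    funext τ
    rw [hFapp, Pi.smul_apply, smul_eq_mul]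
    by_cases h2 : τ = σ
    · rw [h2]
    · rw [Pi.single_eq_of_ne h2, mul_zero, mul_zero]
  let ρ : ∀ k : Fin n, K (t k) →+* ℂ := fun k => (ι.comp (σκ (e k))).toRingHom
  let φ : MultilinearMap ℂ (fun k => V (t k)) ℂ :=
    (MultilinearMap.mkPiAlgebra ℂ (Fin n) ℂ).compLinearMap (fun k => LinearMap.proj (ρ k))
  have hφ : ∀ v, φ v = ∏ k, v k (ρ k) := by
    intro v
    change (MultilinearMap.mkPiAlgebra ℂ (Fin n) ℂ) (fun k => v k (ρ k)) = _
    rw [MultilinearMap.mkPiAlgebra_apply]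
  have hιc : (∏ k, ρ k (π (t k))) ^ (2 * r) = c₀ ^ (2 * r) := by
    have h2 := congrArg ι hrel
    rw [map_pow, map_prod, map_pow, map_prod] at h2
    rw [pow_mul c₀, hc₀]
    simp only [map_pow, map_natCast] at h2
    push_cast
    exact h2
  have hmem := hsp V F hFspan t φ ⟨2 * r, by omega, c₀, hc₀, by
    intro u
    rw [hφ, hφ, ← hιc, ← Finset.prod_pow, ← Finset.prod_mul_distrib]
    exact Finset.prod_congr rfl fun k _ => hFpow _ _ _ _⟩
  -- evaluation at the eigenvectors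
  let v₀ : ∀ k, V (t k) := fun k => Pi.single (ρ k) 1
  have hv₀ : φ v₀ = 1 := by
    rw [hφ]
    refine Finset.prod_eq_one fun k _ => ?_
    change (Pi.single (ρ k) (1 : ℂ) : V (t k)) (ρ k) = 1
    rw [Pi.single_eq_same]
  have hFv₀ : ∀ (m : ℕ) k, (F (t k) ^ m) (v₀ k) = ρ k (π (t k)) ^ m • v₀ k := by
    intro m k
    funext τ
    rw [hFpow, Pi.smul_apply, smul_eq_mul]
    by_cases h2 : τ = ρ k
    · rw [h2]
    · have h3 : v₀ k τ = 0 := Pi.single_eq_of_ne h2 1
      rw [h3, mul_zero, mul_zero]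
  have hzero : ∀ ψ ∈ {ψ | IsExternalProductOfTate V F (fun j => p ^ a j) γ t ψ}, ψ v₀ = 0 := by
    rintro ψ ⟨φi, hT, hψ⟩
    by_contra hne'
    rw [hψ] at hne'
    have h6 : φi i₀ (fun k => v₀ k) ≠ 0 :=
      (Finset.prod_ne_zero_iff.1 hne') i₀ (Finset.mem_univ _)
    obtain ⟨s, hs, c', hc', hφi⟩ := hT i₀
    have h7 := hφi (fun k => v₀ k)
    have h8 : (fun k : {k // γ (t k) = i₀} => (F (t k) ^ s) (v₀ k)) =
        fun k : {k // γ (t k) = i₀} => ρ k (π (t k)) ^ s • v₀ k :=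
      funext fun k => hFv₀ s k
    rw [h8, MultilinearMap.map_smul_univ, smul_eq_mul, Finset.prod_pow] at h7
    have h9 := mul_right_cancel₀ h6 h7
    have h10 : (∏ k : {k // γ (t k) = i₀}, σκ (e k) (π (t k))) ^ (2 * s) =
        (∏ k : {k // γ (t k) = i₀}, ((p : L) ^ a (t k))) ^ s := by
      apply ι.toRingHom.injective
      change ι _ = ι _
      rw [map_pow, map_prod, map_pow, map_prod]
      simp only [map_pow, map_natCast]
      have h11 : ∏ k : {k // γ (t k) = i₀}, ((p : ℂ) ^ a (t k)) = c' ^ 2 := by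
        rw [hc']
        push_cast
        rfl
      rw [h11]
      have h12 : ∏ k : {k // γ (t k) = i₀}, ι (σκ (e k) (π (t k))) =
          ∏ k : {k // γ (t k) = i₀}, ρ k (π (t k)) := rfl
      rw [h12, mul_comm 2 s, pow_mul, h9, ← pow_mul, ← pow_mul, mul_comm]
    have h13 := balanced_of_rel hW e₀ (fun k : {k // γ (t k) = i₀} => t k)
      (fun k : {k // γ (t k) = i₀} => σκ (e k)) s hs h10 1
    have h14 := sum_fiber_group γ i₀ X (fun j τ => (f j τ : ℚ)) hfib
      (fun x => cw a v e₀ x.1 (act 1 x.2))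
    apply hf1
    have h15 : ∀ j (τ : K j →ₐ[ℚ] L), act 1 τ = τ := fun j τ => rfl
    simp only [h15] at h14 h13
    rw [← h14]
    exact h13
  have hφ0 : φ v₀ = 0 := by
    have h1 : ∀ ψ ∈ Submodule.span ℂ
        {ψ | IsExternalProductOfTate V F (fun j => p ^ a j) γ t ψ}, ψ v₀ = 0 := by
      intro ψ hψ
      induction hψ using Submodule.span_induction with
      | mem y h => exact hzero y h
      | zero => rfl
      | add y z _ _ hy hz => rw [add_apply, hy, hz, add_zero]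
      | smul b y _ hy => rw [smul_apply, hy, smul_zero]
    exact h1 φ hmem
  rw [hv₀] at hφ0
  exact one_ne_zero hφ0

/-- **The exact criterion for the splitting of Tate classes.** -/
theorem tateSplits_iff (p : ℕ) [Fact p.Prime] {I J : Type} [Fintype I] [Fintype J]
    (K : J → Type) [∀ j, Field (K j)] [∀ j, NumberField (K j)] [∀ j, IsCMField (K j)]
    (a : J → ℕ) (π : ∀ j, K j) (v : ∀ j, (K j →+* PadicAlgCl p) → ℚ)
    (hW : ∀ j, IsWeilIn p (a j) (π j) (v j)) (γ : J → I) :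
    TateSplits π (fun j => p ^ a j) γ ↔ TraceSpacesIndependent p K v γ :=
  ⟨independent_of_tateSplits p K a π v hW γ, tateSplits_of_independent p K a π v hW γ⟩

end Pool.Agent.TH5.ST
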