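import Pool.Agent.H485R3.Exact.Generate

/-!
# The slope trace: linear relations and odd functions on embeddings
-/

set_option autoImplicit false

namespace Pool.Agent.TH5.ST

open NumberField NumberField.IsCMField Pool.Agent.H485R3 Pool.Agent.H485R3.Hodge
  Pool.Agent.H925R2 Pool.Agent.H485R3.Exact

/-- any two embeddings of a number field in a Galois extension are conjugate -/
theorem exists_act {K : Type} [Field K] [NumberField K] {L : Type} [Field L] [Algebra ℚ L]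
    [FiniteDimensional ℚ L] [IsGalois ℚ L] (s τ : K →ₐ[ℚ] L) : ∃ g : L ≃ₐ[ℚ] L, act g s = τ := by
  let pb : PowerBasis ℚ K := Field.powerBasisOfFiniteOfSeparable ℚ K
  have h1 : Polynomial.aeval (s pb.gen) (minpoly ℚ pb.gen) = 0 := by
    rw [Polynomial.aeval_algHom_apply, minpoly.aeval, map_zero]
  have h2 : Polynomial.aeval (τ pb.gen) (minpoly ℚ pb.gen) = 0 := by
    rw [Polynomial.aeval_algHom_apply, minpoly.aeval, map_zero]
  obtain ⟨g, hg⟩ := exists_gal_root
    (minpoly.irreducible (Algebra.IsIntegral.isIntegral pb.gen)) h1 h2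
  exact ⟨g, pb.algHom_ext hg⟩

section core

variable {I : Type} [Fintype I] {K : I → Type} [∀ i, Field (K i)]
  [∀ i, NumberField (K i)] [∀ i, IsCMField (K i)]
  {L : Type} [Field L] [CharZero L] [Algebra ℚ L] [FiniteDimensional ℚ L] [IsGalois ℚ L]
  (c : L ≃ₐ[ℚ] L)
  (hcs : ∀ (i : I) (τ : K i →ₐ[ℚ] L) (z : K i), c (τ z) = τ (complexConj (K i) z))
  (s : ∀ i, K i →ₐ[ℚ] L)
  (w : ∀ i, (K i →ₐ[ℚ] L) → ℚ)

include hcs s in
/-- Odd functions `F i` on the embeddings orthogonal to all translates of `w` vanish if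
the `w`-weighted trace is injective on odd elements. -/
theorem eq_zero_of_injective
    (hinj : ∀ z : ∀ i, K i, (∀ i, complexConj (K i) (z i) = - z i) →
      ∑ i, ∑ τ : K i →ₐ[ℚ] L, (w i τ : L) * τ (z i) = 0 → ∀ i, z i = 0)
    (F : ∀ i, (K i →ₐ[ℚ] L) → ℚ) (hF : ∀ i τ, F i (act c τ) = - F i τ)
    (hbal : ∀ g : L ≃ₐ[ℚ] L, ∑ i, ∑ τ : K i →ₐ[ℚ] L, F i τ * w i (act g τ) = 0) :
    ∀ i τ, F i τ = 0 := by
  classical
  have key : ∀ θ : L, ∀ i (ρ : K i →ₐ[ℚ] L),
      ∑ h : L ≃ₐ[ℚ] L, (F i (act h⁻¹ ρ) : L) * h θ = 0 := by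
    intro θ
    -- the elements `z i`
    have hz : ∀ i, ∃ z : K i, s i z = ∑ h : L ≃ₐ[ℚ] L, (F i (act h⁻¹ (s i)) : L) * h θ := by
      intro i
      have h1 : ∑ h : L ≃ₐ[ℚ] L, (F i (act h⁻¹ (s i)) : L) * h θ ∈ (s i).fieldRange := by
        rw [← IsGalois.fixedField_fixingSubgroup (s i).fieldRange]
        rw [IntermediateField.mem_fixedField_iff]
        intro u hu
        rw [map_sum]
        refine Fintype.sum_equiv (Equiv.mulLeft u) _ _ fun h => ?_
        rw [map_mul, map_ratCast]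
        have h2 : act (u * h)⁻¹ (s i) = act h⁻¹ (s i) := by
          rw [mul_inv_rev, act_mul]
          congr 1
          rw [act_inv_eq]
          ext z
          have h3 := (IntermediateField.mem_fixingSubgroup_iff _ _).1 hu (s i z) ⟨z, rfl⟩
          exact h3.symm
        change (F i (act h⁻¹ (s i)) : L) * u (h θ) = (F i (act (u * h)⁻¹ (s i)) : L) * (u * h) θ
        rw [h2]
        rfl
      exact h1
    choose z hz using hz
    have hρ : ∀ i (ρ : K i →ₐ[ℚ] L),
        ρ (z i) = ∑ h : L ≃ₐ[ℚ] L, (F i (act h⁻¹ ρ) : L) * h θ := by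
      intro i ρ
      obtain ⟨g, rfl⟩ := exists_act (s i) ρ
      rw [act_apply, hz, map_sum]
      refine Fintype.sum_equiv (Equiv.mulLeft g) _ _ fun h => ?_
      rw [map_mul, map_ratCast]
      have h2 : act (g * h)⁻¹ (act g (s i)) = act h⁻¹ (s i) := by
        rw [mul_inv_rev, act_mul, act_inv_act]
      change (F i (act h⁻¹ (s i)) : L) * g (h θ) =
        (F i (act (g * h)⁻¹ (act g (s i))) : L) * (g * h) θ
      rw [h2]
      rfl
    have hodd : ∀ i, complexConj (K i) (z i) = - z i := by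
      intro i
      apply (s i).toRingHom.injective
      change s i (complexConj (K i) (z i)) = s i (- z i)
      rw [← hcs, map_neg]
      have h1 : c (s i (z i)) = act c (s i) (z i) := rfl
      rw [h1, hρ, hρ, ← Finset.sum_neg_distrib]
      refine Finset.sum_congr rfl fun h _ => ?_
      have h2 : act h⁻¹ (act c (s i)) = act c (act h⁻¹ (s i)) := by
        ext y
        change h⁻¹ (c (s i y)) = c (h⁻¹ (s i y))
        rw [hcs]
        exact (hcs i (act h⁻¹ (s i)) y).symm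
      rw [h2, hF]
      push_cast
      ring
    have hsum : ∑ i, ∑ τ : K i →ₐ[ℚ] L, (w i τ : L) * τ (z i) = 0 := by
      simp only [hρ, Finset.mul_sum, ← mul_assoc]
      have h1 : ∀ i, ∑ τ : K i →ₐ[ℚ] L, ∑ h : L ≃ₐ[ℚ] L,
          (w i τ : L) * (F i (act h⁻¹ τ) : L) * h θ =
          ∑ h : L ≃ₐ[ℚ] L, ((∑ τ : K i →ₐ[ℚ] L, F i τ * w i (act h τ) : ℚ) : L) * h θ := by
        intro i
        rw [Finset.sum_comm]
        refine Finset.sum_congr rfl fun h _ => ?_
        rw [← Finset.sum_mul]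
        congr 1
        rw [Rat.cast_sum]
        symm
        refine Fintype.sum_equiv ⟨act h, act h⁻¹, act_inv_act h, act_act_inv h⟩ _ _ fun τ => ?_
        change ((F i τ * w i (act h τ) : ℚ) : L) =
          (w i (act h τ) : L) * (F i (act h⁻¹ (act h τ)) : L)
        rw [act_inv_act]
        push_cast
        ring
      simp only [h1]
      rw [Finset.sum_comm]
      refine Finset.sum_eq_zero fun h _ => ?_
      rw [← Finset.sum_mul, ← Rat.cast_sum, hbal, Rat.cast_zero, zero_mul]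
    have hz0 := hinj z hodd hsum
    intro i ρ
    rw [← hρ, hz0, map_zero]
  intro i τ
  have hli := linearIndependent_monoidHom L L
  have h1 := Fintype.linearIndependent_iff.1 (hli.comp
    (fun h : L ≃ₐ[ℚ] L => ((h : L →* L))) (by
      intro a b hab
      ext x
      exact DFunLike.congr_fun hab x)) (fun h => (F i (act h⁻¹ τ) : L)) (by
      funext θ
      have h2 := key θ i τ
      rw [Finset.sum_apply]
      exact h2) 1
  have h2 : F i (act 1⁻¹ τ) = 0 := by
    exact_mod_cast h1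
  rw [inv_one] at h2
  exact h2

include hcs in
/-- A nonzero odd relation gives a nontrivial balanced function with values in `ℕ`. -/
theorem exists_fun_of_relation (hw : ∀ i τ, w i (act c τ) = - w i τ)
    (z : ∀ i, K i) (hodd : ∀ i, complexConj (K i) (z i) = - z i)
    (hsum : ∑ i, ∑ τ : K i →ₐ[ℚ] L, (w i τ : L) * τ (z i) = 0) (i₁ : I) (hz : z i₁ ≠ 0) :
    ∃ f : ∀ i, (K i →ₐ[ℚ] L) → ℕ, (∀ g : L ≃ₐ[ℚ] L,
      ∑ i, ∑ τ : K i →ₐ[ℚ] L, (f i τ : ℚ) * w i (act g τ) = 0) ∧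
      f i₁ (s i₁) ≠ f i₁ (act c (s i₁)) := by
  classical
  let θ : L := (s i₁ (z i₁))⁻¹
  let F : ∀ i, (K i →ₐ[ℚ] L) → ℚ := fun i τ => Algebra.trace ℚ L (θ * τ (z i))
  have hF1 : F i₁ (s i₁) ≠ 0 := by
    have h1 : s i₁ (z i₁) ≠ 0 := (map_ne_zero _).2 hz
    have h2 : θ * s i₁ (z i₁) = 1 := inv_mul_cancel₀ h1
    change Algebra.trace ℚ L (θ * s i₁ (z i₁)) ≠ 0
    rw [h2]
    have h3 : Algebra.trace ℚ L (1 : L) = Module.finrank ℚ L := by
      have := Algebra.trace_algebraMap (R := ℚ) (S := L) (1 : ℚ)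
      simpa using this
    rw [h3]
    exact_mod_cast (Module.finrank_pos (R := ℚ) (M := L)).ne'
  have hFc : ∀ i τ, F i (act c τ) = - F i τ := by
    intro i τ
    change Algebra.trace ℚ L (θ * c (τ (z i))) = - Algebra.trace ℚ L (θ * τ (z i))
    rw [hcs, hodd, map_neg, mul_neg, map_neg]
  have hFbal : ∀ g : L ≃ₐ[ℚ] L, ∑ i, ∑ τ : K i →ₐ[ℚ] L, F i τ * w i (act g τ) = 0 := by
    intro g
    have h1 : ∀ i, ∑ τ : K i →ₐ[ℚ] L, F i τ * w i (act g τ) =
        ∑ τ : K i →ₐ[ℚ] L, w i τ * Algebra.trace ℚ L (θ * g⁻¹ (τ (z i))) := by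
      intro i
      refine Fintype.sum_equiv ⟨act g, act g⁻¹, act_inv_act g, act_act_inv g⟩ _ _ fun τ => ?_
      change F i τ * w i (act g τ) =
        w i (act g τ) * Algebra.trace ℚ L (θ * (act g⁻¹ (act g τ)) (z i))
      rw [act_inv_act, mul_comm]
    have h2 : ∀ i (τ : K i →ₐ[ℚ] L), w i τ * Algebra.trace ℚ L (θ * g⁻¹ (τ (z i))) =
        Algebra.trace ℚ L (θ * g⁻¹ ((w i τ : L) * τ (z i))) := by
      intro i τ
      have h3 : θ * g⁻¹ ((w i τ : L) * τ (z i)) = (algebraMap ℚ L (w i τ)) * (θ * g⁻¹ (τ (z i))) := by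
        rw [map_mul g⁻¹, map_ratCast g⁻¹, eq_ratCast (algebraMap ℚ L)]
        ring
      rw [h3, ← Algebra.smul_def, LinearMap.map_smul, smul_eq_mul]
    simp only [h1, h2]
    simp only [← map_sum, ← Finset.mul_sum]
    rw [hsum, map_zero, mul_zero, map_zero]
  -- clear the denominators
  obtain ⟨N, hN, hNint⟩ : ∃ N : ℕ, 0 < N ∧ ∀ i τ, ∃ m : ℤ, (N : ℚ) * F i τ = m := by
    refine ⟨∏ x : (Σ i, (K i →ₐ[ℚ] L)), (F x.1 x.2).den,
      Finset.prod_pos fun x _ => (F x.1 x.2).den_pos, fun i τ => ?_⟩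
    obtain ⟨k, hk⟩ : (F i τ).den ∣ ∏ x : (Σ i, (K i →ₐ[ℚ] L)), (F x.1 x.2).den :=
      Finset.dvd_prod_of_mem (fun x : (Σ i, (K i →ₐ[ℚ] L)) => (F x.1 x.2).den)
        (Finset.mem_univ (⟨i, τ⟩ : Σ i, (K i →ₐ[ℚ] L)))
    refine ⟨k * (F i τ).num, ?_⟩
    rw [hk]
    push_cast
    have h1 : ((F i τ).den : ℚ) * F i τ = (F i τ).num := by
      rw [mul_comm]; exact Rat.mul_den_eq_num _
    calc ((F i τ).den : ℚ) * k * F i τ = k * (((F i τ).den : ℚ) * F i τ) := by ring
      _ = _ := by rw [h1]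
  choose M hM using hNint
  have hMc : ∀ i τ, M i (act c τ) = - M i τ := by
    intro i τ
    have h1 := hM i (act c τ)
    rw [hFc, mul_neg, hM i τ] at h1
    exact_mod_cast h1.symm
  let f : ∀ i, (K i →ₐ[ℚ] L) → ℕ := fun i τ => (M i τ).toNat
  have hf : ∀ i τ, (f i τ : ℚ) - f i (act c τ) = N * F i τ := by
    intro i τ
    rw [hM i τ]
    simp only [f]
    rw [hMc]
    have h1 : ((M i τ).toNat : ℤ) - ((- M i τ).toNat : ℤ) = M i τ := by omega
    exact_mod_cast h1
  have hcc : ∀ i (τ : K i →ₐ[ℚ] L), act c (act c τ) = τ := by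
    intro i τ
    ext y
    change c (c (τ y)) = τ y
    rw [hcs, hcs, complexConj_apply_apply]
  have hcg : ∀ i (g : L ≃ₐ[ℚ] L) (τ : K i →ₐ[ℚ] L), act g (act c τ) = act c (act g τ) := by
    intro i g τ
    ext y
    change g (c (τ y)) = c (g (τ y))
    rw [hcs]
    exact (hcs i (act g τ) y).symm
  refine ⟨f, fun g => ?_, ?_⟩
  · have h1 : ∀ i, ∑ τ : K i →ₐ[ℚ] L, (f i (act c τ) : ℚ) * w i (act g τ) =
        - ∑ τ : K i →ₐ[ℚ] L, (f i τ : ℚ) * w i (act g τ) := by
      intro i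
      rw [← Finset.sum_neg_distrib]
      refine Fintype.sum_equiv ⟨act c, act c, hcc i, hcc i⟩ _ _ fun τ => ?_
      change (f i (act c τ) : ℚ) * w i (act g τ) = - ((f i (act c τ) : ℚ) * w i (act g (act c τ)))
      rw [hcg, hw]
      ring
    have h2 : ∑ i, ∑ τ : K i →ₐ[ℚ] L, ((f i τ : ℚ) - f i (act c τ)) * w i (act g τ) = 0 := by
      simp only [hf]
      have h3 : ∀ i, ∑ τ : K i →ₐ[ℚ] L, (N : ℚ) * F i τ * w i (act g τ) =
          N * ∑ τ : K i →ₐ[ℚ] L, F i τ * w i (act g τ) := by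
        intro i
        rw [Finset.mul_sum]
        exact Finset.sum_congr rfl fun τ _ => by ring
      simp only [h3]
      rw [← Finset.mul_sum, hFbal, mul_zero]
    simp only [sub_mul, Finset.sum_sub_distrib] at h2
    simp only [h1] at h2
    rw [Finset.sum_neg_distrib] at h2
    linarith
  · intro h
    have h1 := hf i₁ (s i₁)
    rw [h, sub_self] at h1
    have h2 : (N : ℚ) ≠ 0 := by exact_mod_cast hN.ne'
    exact mul_ne_zero h2 hF1 h1.symm

end core

end Pool.Agent.TH5.ST
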