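import Pool.Agent.TH5.ST.Core

/-!
# Weighted traces of odd families: duality with odd functions on embeddings
-/

set_option autoImplicit false

namespace Pool.Agent.TH5.ST

open NumberField NumberField.IsCMField Pool.Agent.H485R3 Pool.Agent.H485R3.Hodge
  Pool.Agent.H925R2 Pool.Agent.H485R3.Exact

section core

variable {J : Type} [Fintype J] {K : J → Type} [∀ j, Field (K j)]
  [∀ j, NumberField (K j)] [∀ j, IsCMField (K j)]
  {L : Type} [Field L] [CharZero L] [Algebra ℚ L] [FiniteDimensional ℚ L] [IsGalois ℚ L]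
  (c : L ≃ₐ[ℚ] L)
  (hcs : ∀ (j : J) (τ : K j →ₐ[ℚ] L) (z : K j), c (τ z) = τ (complexConj (K j) z))
  (s : ∀ j, K j →ₐ[ℚ] L)
  (w : ∀ j, (K j →ₐ[ℚ] L) → ℚ)

include hcs s in
/-- Every odd function on the embeddings comes from odd elements `z j` (depending on `θ`). -/
theorem exists_odd_elements (F : ∀ j, (K j →ₐ[ℚ] L) → ℚ) (hF : ∀ j τ, F j (act c τ) = - F j τ)
    (θ : L) : ∃ z : ∀ j, K j, (∀ j, complexConj (K j) (z j) = - z j) ∧
      ∀ j, ∑ τ : K j →ₐ[ℚ] L, (w j τ : L) * τ (z j) =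
        ∑ h : L ≃ₐ[ℚ] L, ((∑ τ : K j →ₐ[ℚ] L, F j τ * w j (act h τ) : ℚ) : L) * h θ := by
  classical
  have hz : ∀ j, ∃ z : K j, s j z = ∑ h : L ≃ₐ[ℚ] L, (F j (act h⁻¹ (s j)) : L) * h θ := by
    intro j
    have h1 : ∑ h : L ≃ₐ[ℚ] L, (F j (act h⁻¹ (s j)) : L) * h θ ∈ (s j).fieldRange := by
      rw [← IsGalois.fixedField_fixingSubgroup (s j).fieldRange]
      rw [IntermediateField.mem_fixedField_iff]
      intro u hu
      rw [map_sum]
      refine Fintype.sum_equiv (Equiv.mulLeft u) _ _ fun h => ?_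
      rw [map_mul, map_ratCast]
      have h2 : act (u * h)⁻¹ (s j) = act h⁻¹ (s j) := by
        rw [mul_inv_rev, act_mul]
        congr 1
        rw [act_inv_eq]
        ext z
        have h3 := (IntermediateField.mem_fixingSubgroup_iff _ _).1 hu (s j z) ⟨z, rfl⟩
        exact h3.symm
      change (F j (act h⁻¹ (s j)) : L) * u (h θ) = (F j (act (u * h)⁻¹ (s j)) : L) * (u * h) θ
      rw [h2]
      rfl
    exact h1
  choose z hz using hz
  have hρ : ∀ j (ρ : K j →ₐ[ℚ] L),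
      ρ (z j) = ∑ h : L ≃ₐ[ℚ] L, (F j (act h⁻¹ ρ) : L) * h θ := by
    intro j ρ
    obtain ⟨g, rfl⟩ := exists_act (s j) ρ
    rw [act_apply, hz, map_sum]
    refine Fintype.sum_equiv (Equiv.mulLeft g) _ _ fun h => ?_
    rw [map_mul, map_ratCast]
    have h2 : act (g * h)⁻¹ (act g (s j)) = act h⁻¹ (s j) := by
      rw [mul_inv_rev, act_mul, act_inv_act]
    change (F j (act h⁻¹ (s j)) : L) * g (h θ) =
      (F j (act (g * h)⁻¹ (act g (s j))) : L) * (g * h) θ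
    rw [h2]
    rfl
  refine ⟨z, ?_, ?_⟩
  · intro j
    apply (s j).toRingHom.injective
    change s j (complexConj (K j) (z j)) = s j (- z j)
    rw [← hcs, map_neg]
    have h1 : c (s j (z j)) = act c (s j) (z j) := rfl
    rw [h1, hρ, hρ, ← Finset.sum_neg_distrib]
    refine Finset.sum_congr rfl fun h _ => ?_
    have h2 : act h⁻¹ (act c (s j)) = act c (act h⁻¹ (s j)) := by
      ext y
      change h⁻¹ (c (s j y)) = c (h⁻¹ (s j y))
      rw [hcs]
      exact (hcs j (act h⁻¹ (s j)) y).symm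
    rw [h2, hF]
    push_cast
    ring
  · intro j
    simp only [hρ, Finset.mul_sum, ← mul_assoc]
    rw [Finset.sum_comm]
    refine Finset.sum_congr rfl fun h _ => ?_
    rw [← Finset.sum_mul]
    congr 1
    rw [Rat.cast_sum]
    symm
    refine Fintype.sum_equiv ⟨act h, act h⁻¹, act_inv_act h, act_act_inv h⟩ _ _ fun τ => ?_
    change ((F j τ * w j (act h τ) : ℚ) : L) =
      (w j (act h τ) : L) * (F j (act h⁻¹ (act h τ)) : L)
    rw [act_inv_act]
    push_cast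
    ring

/-- Dedekind independence, rational coefficients. -/
theorem eq_zero_of_forall_theta (b : (L ≃ₐ[ℚ] L) → ℚ)
    (hb : ∀ θ : L, ∑ h : L ≃ₐ[ℚ] L, (b h : L) * h θ = 0) (h : L ≃ₐ[ℚ] L) : b h = 0 := by
  have hli := linearIndependent_monoidHom L L
  have h1 := Fintype.linearIndependent_iff.1 (hli.comp
    (fun h : L ≃ₐ[ℚ] L => ((h : L →* L))) (by
      intro a b hab
      ext x
      exact DFunLike.congr_fun hab x)) (fun h => (b h : L)) (by
      funext θ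
      have h2 := hb θ
      rw [Finset.sum_apply]
      exact h2) h
  exact_mod_cast h1

open Classical in
include hcs s in
/-- If the weighted traces of the groups of indices are independent, balanced odd functions are
balanced on every group. -/
theorem split_of_independent {I : Type} (γ : J → I)
    (hind : ∀ z : ∀ j, K j, (∀ j, complexConj (K j) (z j) = - z j) →
      ∑ j, ∑ τ : K j →ₐ[ℚ] L, (w j τ : L) * τ (z j) = 0 →
      ∀ i, ∑ j with γ j = i, ∑ τ : K j →ₐ[ℚ] L, (w j τ : L) * τ (z j) = 0)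
    (F : ∀ j, (K j →ₐ[ℚ] L) → ℚ) (hF : ∀ j τ, F j (act c τ) = - F j τ)
    (hbal : ∀ g : L ≃ₐ[ℚ] L, ∑ j, ∑ τ : K j →ₐ[ℚ] L, F j τ * w j (act g τ) = 0)
    (i : I) (g : L ≃ₐ[ℚ] L) :
    ∑ j with γ j = i, ∑ τ : K j →ₐ[ℚ] L, F j τ * w j (act g τ) = 0 := by
  refine eq_zero_of_forall_theta
    (fun g => ∑ j with γ j = i, ∑ τ : K j →ₐ[ℚ] L, F j τ * w j (act g τ)) ?_ g
  intro θ
  obtain ⟨z, hodd, hz⟩ := exists_odd_elements c hcs s w F hF θ
  have hsumS : ∀ S : Finset J, ∑ j ∈ S, ∑ τ : K j →ₐ[ℚ] L, (w j τ : L) * τ (z j) =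
      ∑ h : L ≃ₐ[ℚ] L, ((∑ j ∈ S, ∑ τ : K j →ₐ[ℚ] L, F j τ * w j (act h τ) : ℚ) : L) * h θ := by
    intro S
    rw [Finset.sum_congr rfl fun j _ => hz j, Finset.sum_comm]
    refine Finset.sum_congr rfl fun h _ => ?_
    rw [← Finset.sum_mul, ← Rat.cast_sum]
  have h1 := hind z hodd (by
    rw [hsumS]
    refine Finset.sum_eq_zero fun h _ => ?_
    rw [hbal, Rat.cast_zero, zero_mul]) i
  rw [hsumS] at h1
  exact h1

open Classical in
include hcs in
/-- A relation between the weighted traces of the groups gives a balanced function with values in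
`ℕ` which is not balanced on one of the groups. -/
theorem exists_fun_of_dependent {I : Type} (γ : J → I)
    (hw : ∀ j τ, w j (act c τ) = - w j τ)
    (z : ∀ j, K j) (hodd : ∀ j, complexConj (K j) (z j) = - z j)
    (hsum : ∑ j, ∑ τ : K j →ₐ[ℚ] L, (w j τ : L) * τ (z j) = 0) (i₁ : I)
    (hz : ∑ j with γ j = i₁, ∑ τ : K j →ₐ[ℚ] L, (w j τ : L) * τ (z j) ≠ 0) :
    ∃ f : ∀ j, (K j →ₐ[ℚ] L) → ℕ, (∀ g : L ≃ₐ[ℚ] L,
      ∑ j, ∑ τ : K j →ₐ[ℚ] L, (f j τ : ℚ) * w j (act g τ) = 0) ∧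
      ∑ j with γ j = i₁, ∑ τ : K j →ₐ[ℚ] L, (f j τ : ℚ) * w j τ ≠ 0 := by
  let S : L := ∑ j with γ j = i₁, ∑ τ : K j →ₐ[ℚ] L, (w j τ : L) * τ (z j)
  let θ : L := S⁻¹
  let F : ∀ j, (K j →ₐ[ℚ] L) → ℚ := fun j τ => Algebra.trace ℚ L (θ * τ (z j))
  have hFc : ∀ j τ, F j (act c τ) = - F j τ := by
    intro j τ
    change Algebra.trace ℚ L (θ * c (τ (z j))) = - Algebra.trace ℚ L (θ * τ (z j))
    rw [hcs, hodd, map_neg, mul_neg, map_neg]
  have hFsum : ∀ (A : Finset J) (g : L ≃ₐ[ℚ] L),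
      ∑ j ∈ A, ∑ τ : K j →ₐ[ℚ] L, F j τ * w j (act g τ) =
        Algebra.trace ℚ L (θ * g⁻¹ (∑ j ∈ A, ∑ τ : K j →ₐ[ℚ] L, (w j τ : L) * τ (z j))) := by
    intro A g
    have h1 : ∀ j, ∑ τ : K j →ₐ[ℚ] L, F j τ * w j (act g τ) =
        ∑ τ : K j →ₐ[ℚ] L, w j τ * Algebra.trace ℚ L (θ * g⁻¹ (τ (z j))) := by
      intro j
      refine Fintype.sum_equiv ⟨act g, act g⁻¹, act_inv_act g, act_act_inv g⟩ _ _ fun τ => ?_
      change F j τ * w j (act g τ) =
        w j (act g τ) * Algebra.trace ℚ L (θ * (act g⁻¹ (act g τ)) (z j))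
      rw [act_inv_act, mul_comm]
    have h2 : ∀ j (τ : K j →ₐ[ℚ] L), w j τ * Algebra.trace ℚ L (θ * g⁻¹ (τ (z j))) =
        Algebra.trace ℚ L (θ * g⁻¹ ((w j τ : L) * τ (z j))) := by
      intro j τ
      have h3 : θ * g⁻¹ ((w j τ : L) * τ (z j)) =
          (algebraMap ℚ L (w j τ)) * (θ * g⁻¹ (τ (z j))) := by
        rw [map_mul g⁻¹, map_ratCast g⁻¹, eq_ratCast (algebraMap ℚ L)]
        ring
      rw [h3, ← Algebra.smul_def, LinearMap.map_smul, smul_eq_mul]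
    simp only [h1, h2]
    simp only [← map_sum, ← Finset.mul_sum]
  have hFbal : ∀ g : L ≃ₐ[ℚ] L, ∑ j, ∑ τ : K j →ₐ[ℚ] L, F j τ * w j (act g τ) = 0 := by
    intro g
    rw [hFsum, hsum, map_zero, mul_zero, map_zero]
  have hF1 : ∑ j with γ j = i₁, ∑ τ : K j →ₐ[ℚ] L, F j τ * w j τ ≠ 0 := by
    have h1 := hFsum (Finset.univ.filter (fun j => γ j = i₁)) 1
    have h2 : ∀ j (τ : K j →ₐ[ℚ] L), act 1 τ = τ := fun j τ => rfl
    simp only [h2] at h1
    rw [h1, inv_one]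
    have h4 : θ * (1 : L ≃ₐ[ℚ] L) S = 1 := inv_mul_cancel₀ hz
    change Algebra.trace ℚ L (θ * (1 : L ≃ₐ[ℚ] L) S) ≠ 0
    rw [h4]
    have h3 : Algebra.trace ℚ L (1 : L) = Module.finrank ℚ L := by
      have := Algebra.trace_algebraMap (R := ℚ) (S := L) (1 : ℚ)
      simpa using this
    rw [h3]
    exact_mod_cast (Module.finrank_pos (R := ℚ) (M := L)).ne'
  -- clear the denominators
  obtain ⟨N, hN, hNint⟩ : ∃ N : ℕ, 0 < N ∧ ∀ j τ, ∃ m : ℤ, (N : ℚ) * F j τ = m := by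
    refine ⟨∏ x : (Σ j, (K j →ₐ[ℚ] L)), (F x.1 x.2).den,
      Finset.prod_pos fun x _ => (F x.1 x.2).den_pos, fun j τ => ?_⟩
    obtain ⟨k, hk⟩ : (F j τ).den ∣ ∏ x : (Σ j, (K j →ₐ[ℚ] L)), (F x.1 x.2).den :=
      Finset.dvd_prod_of_mem (fun x : (Σ j, (K j →ₐ[ℚ] L)) => (F x.1 x.2).den)
        (Finset.mem_univ (⟨j, τ⟩ : Σ j, (K j →ₐ[ℚ] L)))
    refine ⟨k * (F j τ).num, ?_⟩
    rw [hk]
    push_cast
    have h1 : ((F j τ).den : ℚ) * F j τ = (F j τ).num := by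
      rw [mul_comm]; exact Rat.mul_den_eq_num _
    calc ((F j τ).den : ℚ) * k * F j τ = k * (((F j τ).den : ℚ) * F j τ) := by ring
      _ = _ := by rw [h1]
  choose M hM using hNint
  have hMc : ∀ j τ, M j (act c τ) = - M j τ := by
    intro j τ
    have h1 := hM j (act c τ)
    rw [hFc, mul_neg, hM j τ] at h1
    exact_mod_cast h1.symm
  let f : ∀ j, (K j →ₐ[ℚ] L) → ℕ := fun j τ => (M j τ).toNat
  have hf : ∀ j τ, (f j τ : ℚ) - f j (act c τ) = N * F j τ := by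
    intro j τ
    rw [hM j τ]
    simp only [f]
    rw [hMc]
    have h1 : ((M j τ).toNat : ℤ) - ((- M j τ).toNat : ℤ) = M j τ := by omega
    exact_mod_cast h1
  have hcc : ∀ j (τ : K j →ₐ[ℚ] L), act c (act c τ) = τ := by
    intro j τ
    ext y
    change c (c (τ y)) = τ y
    rw [hcs, hcs, complexConj_apply_apply]
  have hcg : ∀ j (g : L ≃ₐ[ℚ] L) (τ : K j →ₐ[ℚ] L), act g (act c τ) = act c (act g τ) := by
    intro j g τ
    ext y
    change g (c (τ y)) = c (g (τ y))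
    rw [hcs]
    exact (hcs j (act g τ) y).symm
  have hfw : ∀ (A : Finset J) (g : L ≃ₐ[ℚ] L),
      2 * ∑ j ∈ A, ∑ τ : K j →ₐ[ℚ] L, (f j τ : ℚ) * w j (act g τ) =
        N * ∑ j ∈ A, ∑ τ : K j →ₐ[ℚ] L, F j τ * w j (act g τ) := by
    intro A g
    have h1 : ∀ j, ∑ τ : K j →ₐ[ℚ] L, (f j (act c τ) : ℚ) * w j (act g τ) =
        - ∑ τ : K j →ₐ[ℚ] L, (f j τ : ℚ) * w j (act g τ) := by
      intro j
      rw [← Finset.sum_neg_distrib]
      refine Fintype.sum_equiv ⟨act c, act c, hcc j, hcc j⟩ _ _ fun τ => ?_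
      change (f j (act c τ) : ℚ) * w j (act g τ) = - ((f j (act c τ) : ℚ) * w j (act g (act c τ)))
      rw [hcg, hw]
      ring
    have h2 : ∀ j, ∑ τ : K j →ₐ[ℚ] L, ((f j τ : ℚ) - f j (act c τ)) * w j (act g τ) =
        2 * ∑ τ : K j →ₐ[ℚ] L, (f j τ : ℚ) * w j (act g τ) := by
      intro j
      simp only [sub_mul, Finset.sum_sub_distrib]
      rw [h1]
      ring
    rw [Finset.mul_sum, Finset.mul_sum]
    refine Finset.sum_congr rfl fun j _ => ?_
    rw [← h2, Finset.mul_sum]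
    refine Finset.sum_congr rfl fun τ _ => ?_
    rw [hf]
    ring
  refine ⟨f, fun g => ?_, ?_⟩
  · have h1 := hfw Finset.univ g
    rw [hFbal, mul_zero] at h1
    linarith
  · intro h0
    have h1 := hfw (Finset.univ.filter (fun j => γ j = i₁)) 1
    have h2 : ∀ j (τ : K j →ₐ[ℚ] L), act 1 τ = τ := fun j τ => rfl
    simp only [h2] at h1
    rw [h0, mul_zero] at h1
    have h3 : (N : ℚ) ≠ 0 := by exact_mod_cast hN.ne'
    exact mul_ne_zero h3 hF1 h1.symm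

end core

end Pool.Agent.TH5.ST
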