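import Pool.Agent.TH5.ST.Core

/-!
# The slope trace of Weil numbers
-/

set_option autoImplicit false

namespace Pool.Agent.TH5.ST

open NumberField NumberField.IsCMField Pool.Agent.H485R3 Pool.Agent.H485R3.Hodge
  Pool.Agent.H925R2 Pool.Agent.H485R3.Exact

/-- `π` is a Weil number with `|π| ^ 2 = p ^ a` that generates the CM field `K`, and `v τ` is
the `p`-adic valuation of `τ π` (with `v p = 1`) for every embedding `τ` of `K` into the algebraic
closure of `ℚ_p`. -/
structure IsWeil (p : ℕ) [Fact p.Prime] (a : ℕ) {K : Type} [Field K] [NumberField K]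
    (π : K) (v : (K →+* PadicAlgCl p) → ℚ) : Prop where
  isIntegral : IsIntegral ℤ π
  norm_sq : ∀ φ : K →+* ℂ, ‖φ π‖ ^ 2 = (p : ℝ) ^ a
  gen : IntermediateField.adjoin ℚ {π} = ⊤
  norm_eq : ∀ τ : K →+* PadicAlgCl p, ‖τ π‖ = (p : ℝ) ^ (-(v τ : ℝ))

/-- The slope trace `(z i) ↦ ∑ i, ∑ τ, v i τ * τ (z i)`, `τ` running through the embeddings of `K i`
into the algebraic closure of `ℚ_p`, is injective on the families of elements `z i` of `K i` with
`complexConj (z i) = - z i`. -/
def SlopeTraceInjective (p : ℕ) [Fact p.Prime] {I : Type} [Fintype I] (K : I → Type)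
    [∀ i, Field (K i)] [∀ i, NumberField (K i)] [∀ i, IsCMField (K i)]
    (v : ∀ i, (K i →+* PadicAlgCl p) → ℚ) : Prop :=
  ∀ z : ∀ i, K i, (∀ i, complexConj (K i) (z i) = - z i) →
    ∑ i, ∑ τ : K i →+* PadicAlgCl p, (v i τ : PadicAlgCl p) * τ (z i) = 0 → ∀ i, z i = 0

section

variable {p : ℕ} [Fact p.Prime] {a : ℕ} {K : Type} [Field K] [NumberField K] [IsCMField K]
  {π : K} {v : (K →+* PadicAlgCl p) → ℚ}

theorem IsWeil.ne_zero (h : IsWeil p a π v) : π ≠ 0 := by
  have hmul := mul_conj_eq p π a h.norm_sq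
  have hp0 : (p : K) ≠ 0 := by exact_mod_cast (Fact.out : p.Prime).ne_zero
  rintro rfl
  rw [zero_mul] at hmul
  exact pow_ne_zero _ hp0 hmul.symm

theorem IsWeil.ldev_eq (h : IsWeil p a π v) (τ : K →+* PadicAlgCl p) :
    ldev p a (τ π) = - (2 * (v τ : ℝ) - a) * Real.log p := by
  have hp : (0 : ℝ) < p := by exact_mod_cast (Fact.out : p.Prime).pos
  unfold ldev
  rw [h.norm_eq, Real.log_rpow hp]
  ring

theorem IsWeil.add_conj (h : IsWeil p a π v) (τ τ' : K →+* PadicAlgCl p)
    (hτ : ∀ z, τ' z = τ (complexConj K z)) : v τ + v τ' = a := by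
  have hp : 1 < (p : ℝ) := by exact_mod_cast (Fact.out : p.Prime).one_lt
  have hlog : 0 < Real.log p := Real.log_pos hp
  have hmul := mul_conj_eq p π a h.norm_sq
  have h1 : τ π * τ' π = (p : PadicAlgCl p) ^ a := by
    rw [hτ, ← map_mul, hmul, map_pow, map_natCast]
  have h2 := ldev_conj p a _ _ h1
  rw [h.ldev_eq, h.ldev_eq] at h2
  have h3 : (2 * (v τ' : ℝ) - a) + (2 * (v τ : ℝ) - a) = 0 := by
    have h4 : ((2 * (v τ' : ℝ) - a) + (2 * (v τ : ℝ) - a)) * Real.log p = 0 := by linarith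
    exact (mul_eq_zero.1 h4).resolve_right hlog.ne'
  have h4 : ((v τ + v τ' : ℚ) : ℝ) = ((a : ℚ) : ℝ) := by
    push_cast
    linarith
  exact_mod_cast h4

/-- embeddings are determined by the value at a generator -/
theorem IsWeil.emb_ext (h : IsWeil p a π v) {A : Type*} [Field A] [Algebra ℚ A]
    {σ τ : K →ₐ[ℚ] A} (hst : σ π = τ π) : σ = τ := by
  ext z
  have hz : z ∈ IntermediateField.adjoin ℚ {π} := by rw [h.gen]; trivial
  induction hz using IntermediateField.adjoin_induction with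
  | mem x hx => rw [Set.mem_singleton_iff] at hx; rw [hx, hst]
  | algebraMap x => rw [AlgHom.commutes, AlgHom.commutes]
  | add x y _ _ hx hy => rw [map_add, map_add, hx, hy]
  | inv x _ hx => rw [map_inv₀, map_inv₀, hx]
  | mul x y _ _ hx hy => rw [map_mul, map_mul, hx, hy]

theorem IsWeil.conj_ne (h : IsWeil p a π v) : complexConj K π ≠ π := by
  intro h0
  apply complexConj_ne_one K
  have h1 : ((complexConj K).restrictScalars ℚ : K →ₐ[ℚ] K) = AlgHom.id ℚ K :=
    h.emb_ext h0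
  ext z
  exact DFunLike.congr_fun h1 z

end

end Pool.Agent.TH5.ST
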