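import Pool.Agent.TH5.ST.Generate

/-!
# If the slope trace is not injective, there are exotic Tate classes
-/

set_option autoImplicit false
set_option linter.unusedSectionVars false

namespace Pool.Agent.TH5.ST

open NumberField NumberField.IsCMField Pool.Agent.H485R3 Pool.Agent.H485R3.Hodge
  Pool.Agent.H925R2 Pool.Agent.H485R3.Exact

theorem not_generate_of_balanced (p : ℕ) [Fact p.Prime] {I : Type} [Fintype I] (K : I → Type)
    [∀ i, Field (K i)] [∀ i, NumberField (K i)] [∀ i, IsCMField (K i)] (a : I → ℕ)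
    (π : ∀ i, K i) (v : ∀ i, (K i →+* PadicAlgCl p) → ℚ)
    (hW : ∀ i, IsWeil p (a i) (π i) (v i)) (hgen : PairingsGenerate π (fun i => p ^ a i))
    {L : Type} [Field L] [CharZero L] [Algebra ℚ L] [FiniteDimensional ℚ L] [IsGalois ℚ L]
    (ι : L →ₐ[ℚ] ℂ) (c : L ≃ₐ[ℚ] L)
    (hcs : ∀ (i : I) (τ : K i →ₐ[ℚ] L) (z : K i), c (τ z) = τ (complexConj (K i) z))
    (e₀ : L →ₐ[ℚ] PadicAlgCl p) (f : ∀ i, (K i →ₐ[ℚ] L) → ℕ)
    (hf : ∀ g : L ≃ₐ[ℚ] L,
      ∑ i, ∑ τ : K i →ₐ[ℚ] L, (f i τ : ℚ) * cw a v e₀ i (act g τ) = 0)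
    (i₁ : I) (τ₁ : K i₁ →ₐ[ℚ] L) : f i₁ τ₁ = f i₁ (act c τ₁) := by
  classical
  have hp : p.Prime := Fact.out
  have hppos : (0 : ℝ) < p := by exact_mod_cast hp.pos
  have hlog : 0 < Real.log p := Real.log_pos (by exact_mod_cast hp.one_lt)
  let S := Σ i, (K i →ₐ[ℚ] L)
  let κ := Σ x : S, Fin (f x.1 x.2)
  let T : κ → I := fun k => k.1.1
  let σκ : ∀ k : κ, K (T k) →ₐ[ℚ] L := fun k => k.1.2
  let n := Fintype.card κ
  let e : Fin n ≃ κ := (Fintype.equivFin κ).symm
  have hsumκ : ∀ (R : Type) [CommRing R] (G : S → R), ∑ k : Fin n, G (e k).1 =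
      ∑ i, ∑ τ : K i →ₐ[ℚ] L, (f i τ : R) * G ⟨i, τ⟩ := by
    intro R _ G
    rw [Equiv.sum_comp e (fun k : κ => G k.1), Fintype.sum_sigma, Fintype.sum_sigma]
    refine Finset.sum_congr rfl fun i _ => Finset.sum_congr rfl fun τ _ => ?_
    change ∑ _y : Fin (f i τ), G ⟨i, τ⟩ = _
    rw [Finset.sum_const, Finset.card_univ, Fintype.card_fin, nsmul_eq_mul]
  let D : ∀ i, (K i →ₐ[ℚ] L) → ℝ := fun i τ => ldev p (a i) (e₀ (τ (π i)))
  have hD : ∀ i τ, D i τ = - (cw a v e₀ i τ : ℝ) * Real.log p := fun i τ => ldev_cw hW e₀ i τ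
  -- the balance at all places over `p`
  have hbal : ∀ g : L ≃ₐ[ℚ] L, ∑ k, D (T (e k)) (act g (σκ (e k))) = 0 := by
    intro g
    have h1 : ∑ k : Fin n, D (T (e k)) (act g (σκ (e k))) =
        ∑ i, ∑ τ : K i →ₐ[ℚ] L, (f i τ : ℝ) * D i (act g τ) :=
      hsumκ ℝ (fun x => D x.1 (act g x.2))
    rw [h1]
    simp only [hD]
    have h2 := congrArg (fun q : ℚ => (q : ℝ)) (hf g)
    push_cast at h2
    have h3 : ∑ i, ∑ τ : K i →ₐ[ℚ] L, (f i τ : ℝ) * (-(cw a v e₀ i (act g τ) : ℝ) * Real.log p) =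
        - (∑ i, ∑ τ : K i →ₐ[ℚ] L, (f i τ : ℝ) * (cw a v e₀ i (act g τ) : ℝ)) * Real.log p := by
      rw [neg_mul, Finset.sum_mul, ← Finset.sum_neg_distrib]
      refine Finset.sum_congr rfl fun i _ => ?_
      rw [Finset.sum_mul, ← Finset.sum_neg_distrib]
      exact Finset.sum_congr rfl fun τ _ => by ring
    rw [h3, h2]
    ring
  -- the multiplicative relation
  let N : L := ∏ k, σκ (e k) (π (T (e k)))
  let Q : ℕ := ∏ k, p ^ a (T (e k))
  have hQ0 : Q ≠ 0 := Finset.prod_ne_zero_iff.2 fun k _ => pow_ne_zero _ hp.ne_zero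
  have hpa : ∀ i, π i * complexConj (K i) (π i) = (p : K i) ^ a i := fun i =>
    mul_conj_eq p (π i) (a i) (hW i).norm_sq
  have hπ0 : ∀ i, π i ≠ 0 := fun i => (hW i).ne_zero
  have hN0 : N ≠ 0 := Finset.prod_ne_zero_iff.2 fun k _ => (map_ne_zero _).2 (hπ0 _)
  obtain ⟨r, hr, hξ⟩ : ∃ r : ℕ, 0 < r ∧ (N ^ 2 / (Q : L)) ^ r = 1 := by
    apply root_of_unity
    · intro l _ el
      rw [map_div₀, map_pow, map_natCast, norm_div, norm_pow]
      by_cases hl : l = p
      · subst hl
        obtain ⟨g, hg⟩ := exists_gal e₀ el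
        have h1 := hbal g
        have hNpos : 0 < ‖el N‖ := norm_pos_iff.2 ((map_ne_zero _).2 hN0)
        have hQpos : 0 < ‖(Q : PadicAlgCl l)‖ := norm_pos_iff.2 (by exact_mod_cast hQ0)
        have h2 : Real.log ‖el N‖ = ∑ k, Real.log ‖e₀ (act g (σκ (e k)) (π (T (e k))))‖ := by
          rw [← Real.log_prod]
          · simp only [N]
            rw [map_prod, norm_prod]
            congr 1
            exact Finset.prod_congr rfl fun k _ => by rw [hg]; rfl
          · intro k _
            exact norm_ne_zero_iff.2 ((map_ne_zero _).2 ((map_ne_zero _).2 (hπ0 _)))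
        have h3 : Real.log ‖(Q : PadicAlgCl l)‖ = - ∑ k, (a (T (e k)) : ℝ) * Real.log l := by
          simp only [Q]
          push_cast
          rw [norm_prod, Real.log_prod]
          · rw [← Finset.sum_neg_distrib]
            refine Finset.sum_congr rfl fun k _ => ?_
            rw [norm_pow, Real.log_pow, norm_p_padic, Real.log_inv]
            ring
          · intro k _
            rw [norm_pow, norm_p_padic]
            positivity
        have h4 : Real.log (‖el N‖ ^ 2 / ‖(Q : PadicAlgCl l)‖) = 0 := by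
          rw [Real.log_div (by positivity) hQpos.ne', Real.log_pow, h2, h3]
          simp only [D, ldev] at h1
          rw [Finset.sum_add_distrib, ← Finset.mul_sum] at h1
          push_cast
          linarith
        have h5 : ‖el N‖ ^ 2 / ‖(Q : PadicAlgCl l)‖ = 1 := by
          have h6 : 0 < ‖el N‖ ^ 2 / ‖(Q : PadicAlgCl l)‖ := by positivity
          exact Real.eq_one_of_pos_of_log_eq_zero h6 h4
        exact h5.le
      · have h1 : ‖el N‖ = 1 := by
          simp only [N]
          rw [map_prod, norm_prod]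
          refine Finset.prod_eq_one fun k _ => ?_
          exact norm_eq_one_of_ne p (a (T (e k))) (π (T (e k))) (hW _).isIntegral (hW _).norm_sq
            l hl (el.toRingHom.comp (σκ (e k)).toRingHom)
        have h2 : ‖(Q : PadicAlgCl l)‖ = 1 := by
          simp only [Q]
          push_cast
          rw [norm_prod]
          refine Finset.prod_eq_one fun k _ => ?_
          have h4 : (p : PadicAlgCl l) = algebraMap ℚ_[l] (PadicAlgCl l) (p : ℚ_[l]) := by simp
          rw [norm_pow, h4, PadicAlgCl.norm_extends]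
          have h5 : ‖(p : ℚ_[l])‖ = 1 := by
            rw [Padic.norm_natCast_eq_one_iff]
            exact (Nat.coprime_primes (Fact.out : l.Prime) (Fact.out : p.Prime)).2 hl
          rw [h5, one_pow]
        rw [h1, h2]
        norm_num
    · intro φ
      rw [map_div₀, map_pow, map_natCast, norm_div, norm_pow]
      have h1 : ‖φ N‖ ^ 2 = Q := by
        simp only [N, Q]
        rw [map_prod, norm_prod, ← Finset.prod_pow]
        push_cast
        refine Finset.prod_congr rfl fun k _ => ?_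
        exact (hW (T (e k))).norm_sq (φ.toRingHom.comp (σκ (e k)).toRingHom)
      rw [h1, Complex.norm_natCast, div_self]
      exact_mod_cast hQ0
  -- the Tate class
  obtain ⟨c₀, hc₀⟩ : ∃ c₀ : ℂ, c₀ ^ 2 = (Q : ℂ) := IsAlgClosed.exists_pow_nat_eq _ two_pos
  have hc₀0 : c₀ ≠ 0 := by
    rintro rfl
    rw [zero_pow two_ne_zero] at hc₀
    exact hQ0 (by exact_mod_cast hc₀.symm)
  have hNc : (ι N) ^ (2 * r) = c₀ ^ (2 * r) := by
    have h1 := congrArg ι hξ
    rw [map_pow, map_div₀, map_pow, map_natCast, map_one, div_pow, ← hc₀, ← pow_mul,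
      ← pow_mul] at h1
    exact (div_eq_one_iff_eq (pow_ne_zero _ hc₀0)).1 h1
  let V : I → Type := fun i => (K i →+* ℂ) → ℂ
  let F : ∀ i, V i →ₗ[ℂ] V i := fun i => LinearMap.pi fun σ => (σ (π i)) • LinearMap.proj σ
  have hFapp : ∀ i (v : V i) (σ : K i →+* ℂ), F i v σ = σ (π i) * v σ := fun i v σ => rfl
  have hFpow : ∀ i (m : ℕ) (v : V i) (σ : K i →+* ℂ), (F i ^ m) v σ = σ (π i) ^ m * v σ := by
    intro i m
    induction m with
    | zero =>
      intro v σ
      rw [pow_zero, pow_zero, one_mul]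
      rfl
    | succ m ih =>
      intro v σ
      rw [pow_succ, Module.End.mul_apply, ih, hFapp, pow_succ]
      ring
  have hFspan : ∀ i, Submodule.span ℂ {v : V i | ∃ σ : K i →+* ℂ, F i v = σ (π i) • v} = ⊤ := by
    intro i
    rw [eq_top_iff]
    intro v _
    have h1 : v = ∑ σ : K i →+* ℂ, v σ • (Pi.single σ (1 : ℂ) : V i) := by
      funext τ
      rw [Finset.sum_apply, Finset.sum_eq_single τ]
      · simp
      · intro b _ hb
        simp [Pi.single_eq_of_ne (Ne.symm hb)]
      · intro h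
        exact absurd (Finset.mem_univ _) h
    rw [h1]
    refine Submodule.sum_mem _ fun σ _ => Submodule.smul_mem _ _ (Submodule.subset_span ⟨σ, ?_⟩)
    funext τ
    rw [hFapp, Pi.smul_apply, smul_eq_mul]
    by_cases h2 : τ = σ
    · rw [h2]
    · rw [Pi.single_eq_of_ne h2, mul_zero, mul_zero]
  let t : Fin n → I := fun k => T (e k)
  let ρ : ∀ k : Fin n, K (t k) →+* ℂ := fun k => (ι.comp (σκ (e k))).toRingHom
  let φ : MultilinearMap ℂ (fun k => V (t k)) ℂ :=
    (MultilinearMap.mkPiAlgebra ℂ (Fin n) ℂ).compLinearMap (fun k => LinearMap.proj (ρ k))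
  have hφ : ∀ v, φ v = ∏ k, v k (ρ k) := by
    intro v
    change (MultilinearMap.mkPiAlgebra ℂ (Fin n) ℂ) (fun k => v k (ρ k)) = _
    rw [MultilinearMap.mkPiAlgebra_apply]
  have hc₀' : c₀ ^ 2 = ∏ k, (((p ^ a (t k) : ℕ)) : ℂ) := by
    rw [hc₀]
    simp only [Q, t]
    push_cast
    rfl
  have hmem := hgen V F hFspan t (2 * r) (by omega) c₀ hc₀' φ (by
    intro v
    rw [hφ, hφ, ← hNc]
    have h1 : ι N = ∏ k, ρ k (π (t k)) := by
      simp only [N, map_prod]
      rfl
    rw [h1, ← Finset.prod_pow, ← Finset.prod_mul_distrib]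
    exact Finset.prod_congr rfl fun k _ => hFpow _ _ _ _)
  -- evaluation at the eigenvectors
  let v₀ : ∀ k, V (t k) := fun k => Pi.single (ρ k) 1
  have hv₀ : φ v₀ = 1 := by
    rw [hφ]
    refine Finset.prod_eq_one fun k _ => ?_
    change (Pi.single (ρ k) (1 : ℂ) : V (t k)) (ρ k) = 1
    rw [Pi.single_eq_same]
  have hFv₀ : ∀ k, F (t k) (v₀ k) = ρ k (π (t k)) • v₀ k := by
    intro k
    funext τ
    rw [hFapp, Pi.smul_apply, smul_eq_mul]
    by_cases h2 : τ = ρ k
    · rw [h2]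
    · have h3 : v₀ k τ = 0 := Pi.single_eq_of_ne h2 1
      rw [h3, mul_zero, mul_zero]
  by_contra hne₁
  have hzero : ∀ ψ ∈ {ψ | Exact.IsProductOfPairings V F (fun i => ((p ^ a i : ℕ) : ℂ)) t ψ},
      ψ v₀ = 0 := by
    rintro ψ ⟨τ, B, h1, h2, h3, h4, h5⟩
    by_contra hne
    rw [h5] at hne
    have h6 : ∀ k, k < τ k → B k (v₀ k) (v₀ (τ k)) ≠ 0 := by
      intro k hk
      exact (Finset.prod_ne_zero_iff.1 hne) k (Finset.mem_filter.2 ⟨Finset.mem_univ _, hk⟩)
    have h7 : ∀ k, k < τ k → ρ k (π (t k)) * ρ (τ k) (π (t (τ k))) = ((p ^ a (t k) : ℕ) : ℂ) := by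
      intro k hk
      have h8 := h4 k (v₀ k) (v₀ (τ k))
      rw [hFv₀, hFv₀, map_smul, map_smul, LinearMap.smul_apply, smul_eq_mul, smul_eq_mul,
        ← mul_assoc] at h8
      have h9 := mul_right_cancel₀ (h6 k hk) h8
      exact (mul_comm _ _).trans h9
    -- matched variables belong to conjugate embeddings
    have hconj : ∀ k, (e (τ k)).1 = (⟨(e k).1.1, act c (e k).1.2⟩ : S) ∨
        (e k).1 = (⟨(e (τ k)).1.1, act c (e (τ k)).1.2⟩ : S) := by
      have hsymm : ∀ k k', t k' = t k →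
          ρ k (π (t k)) * ρ k' (π (t k')) = ((p ^ a (t k) : ℕ) : ℂ) →
          (e k').1 = (⟨(e k).1.1, act c (e k).1.2⟩ : S) := by
        intro k k' htt hmul
        have h8 : σκ (e k') (π (t k')) = act c (σκ (e k)) (π (t k)) := by
          have h9 : act c (σκ (e k)) (π (t k)) = σκ (e k) (complexConj _ (π (t k))) :=
            hcs _ _ _
          rw [h9]
          apply ι.toRingHom.injective
          change ρ k' (π (t k')) = ρ k (complexConj _ (π (t k)))
          have h10 : ρ k (π (t k)) ≠ 0 := (map_ne_zero _).2 (hπ0 _)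
          apply mul_left_cancel₀ h10
          rw [hmul, ← map_mul, hpa]
          push_cast
          rw [map_pow, map_natCast]
        rcases hk : (e k).1 with ⟨i, σ⟩
        rcases hk' : (e k').1 with ⟨i', σ'⟩
        have ht : t k = i := congrArg Sigma.fst hk
        have ht' : t k' = i' := congrArg Sigma.fst hk'
        have hii : i' = i := by rw [← ht, ← ht', htt]
        subst hii
        have h11 : σ' = act c σ := by
          apply (hW i').emb_ext
          have e1 : σκ (e k') (π (t k')) = σ' (π i') := by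
            have : ∀ x : S, (e k').1 = x → (e k').1.2 (π (e k').1.1) = x.2 (π x.1) := by
              rintro x rfl; rfl
            exact this _ hk'
          have e2 : act c (σκ (e k)) (π (t k)) = act c σ (π i') := by
            have : ∀ x : S, (e k).1 = x → act c (e k).1.2 (π (e k).1.1) = act c x.2 (π x.1) := by
              rintro x rfl; rfl
            exact this _ hk
          rw [← e1, ← e2, h8]
        rw [h11]
      intro k
      rcases lt_trichotomy k (τ k) with h | h | h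
      · exact Or.inl (hsymm k (τ k) (h3 k) (h7 k h))
      · exact absurd h.symm (h2 k)
      · right
        have h8 := h7 (τ k) (by rw [h1]; exact h)
        rw [h1] at h8
        exact hsymm (τ k) k (h3 k).symm h8
    -- an odd function on the embeddings
    let G : S → ℤ := fun x => (if x = (⟨i₁, τ₁⟩ : S) then 1 else 0) -
      (if x = (⟨i₁, act c τ₁⟩ : S) then 1 else 0)
    have hccx : ∀ i (τ : K i →ₐ[ℚ] L), act c (act c τ) = τ := by
      intro i τ
      ext y
      change c (c (τ y)) = τ y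
      rw [hcs, hcs, complexConj_apply_apply]
    have hGodd : ∀ x : S, G (⟨x.1, act c x.2⟩ : S) = - G x := by
      rintro ⟨i, σ⟩
      have e1 : ((⟨i, act c σ⟩ : S) = ⟨i₁, τ₁⟩) ↔ ((⟨i, σ⟩ : S) = ⟨i₁, act c τ₁⟩) := by
        constructor
        · intro h
          obtain ⟨rfl, h'⟩ := Sigma.mk.inj h
          rw [← eq_of_heq h', hccx]
        · intro h
          obtain ⟨rfl, h'⟩ := Sigma.mk.inj h
          rw [eq_of_heq h', hccx]
      have e2 : ((⟨i, act c σ⟩ : S) = ⟨i₁, act c τ₁⟩) ↔ ((⟨i, σ⟩ : S) = ⟨i₁, τ₁⟩) := by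
        constructor
        · intro h
          obtain ⟨rfl, h'⟩ := Sigma.mk.inj h
          have h'' := congrArg (act c) (eq_of_heq h')
          rw [hccx, hccx] at h''
          rw [h'']
        · intro h
          obtain ⟨rfl, h'⟩ := Sigma.mk.inj h
          rw [eq_of_heq h']
      simp only [G, e1, e2]
      ring
    have h8 : ∀ k, G (e k).1 + G (e (τ k)).1 = 0 := by
      intro k
      rcases hconj k with h | h
      · rw [h, hGodd]
        ring
      · rw [h, hGodd]
        ring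
    have h9 : ∑ k : Fin n, G (e k).1 = 0 := by
      have h10 : ∑ k : Fin n, G (e (τ k)).1 = ∑ k : Fin n, G (e k).1 :=
        Equiv.sum_comp τ (fun k => G (e k).1)
      have h11 : ∑ k : Fin n, G (e k).1 + ∑ k : Fin n, G (e (τ k)).1 = 0 := by
        rw [← Finset.sum_add_distrib]
        exact Finset.sum_eq_zero fun k _ => h8 k
      omega
    rw [hsumκ ℤ G] at h9
    have h12 : ∀ x₀ : S, ∑ i, ∑ τ : K i →ₐ[ℚ] L,
        (f i τ : ℤ) * (if (⟨i, τ⟩ : S) = x₀ then 1 else 0) = f x₀.1 x₀.2 := by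
      intro x₀
      have h13 := Fintype.sum_sigma
        (fun x : S => (f x.1 x.2 : ℤ) * (if x = x₀ then 1 else 0))
      rw [← h13, Finset.sum_eq_single x₀]
      · rw [if_pos rfl, mul_one]
      · intro b _ hb
        rw [if_neg hb, mul_zero]
      · intro h
        exact absurd (Finset.mem_univ _) h
    have h14 : (f i₁ τ₁ : ℤ) - f i₁ (act c τ₁) = 0 := by
      rw [← h12 ⟨i₁, τ₁⟩, ← h12 ⟨i₁, act c τ₁⟩, ← Finset.sum_sub_distrib]
      refine Eq.trans ?_ h9
      refine Finset.sum_congr rfl fun i _ => ?_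
      rw [← Finset.sum_sub_distrib]
      refine Finset.sum_congr rfl fun τ _ => ?_
      have hG : G ⟨i, τ⟩ = (if (⟨i, τ⟩ : S) = (⟨i₁, τ₁⟩ : S) then (1 : ℤ) else 0) -
        (if (⟨i, τ⟩ : S) = (⟨i₁, act c τ₁⟩ : S) then (1 : ℤ) else 0) := rfl
      rw [hG, mul_sub]
    exact hne₁ (by omega)
  have hφ0 : φ v₀ = 0 := by
    have h1 : ∀ ψ ∈ Submodule.span ℂ
        {ψ | Exact.IsProductOfPairings V F (fun i => ((p ^ a i : ℕ) : ℂ)) t ψ}, ψ v₀ = 0 := by
      intro ψ hψ
      induction hψ using Submodule.span_induction with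
      | mem y h => exact hzero y h
      | zero => rfl
      | add y z _ _ hy hz => rw [add_apply, hy, hz, add_zero]
      | smul b y _ hy => rw [smul_apply, hy, smul_zero]
    exact h1 φ hmem
  rw [hv₀] at hφ0
  exact one_ne_zero hφ0

theorem injective_of_generate (p : ℕ) [Fact p.Prime] {I : Type} [Fintype I] (K : I → Type)
    [∀ i, Field (K i)] [∀ i, NumberField (K i)] [∀ i, IsCMField (K i)] (a : I → ℕ)
    (π : ∀ i, K i) (v : ∀ i, (K i →+* PadicAlgCl p) → ℚ)
    (hW : ∀ i, IsWeil p (a i) (π i) (v i)) (hgen : PairingsGenerate π (fun i => p ^ a i)) :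
    SlopeTraceInjective p K v := by
  classical
  intro z hodd hsum i₁
  by_contra hz
  obtain ⟨L, _, _, _, _, _, ι, c, hc, hcs, hlift⟩ := exists_common_conj K
  let e₀ : L →ₐ[ℚ] PadicAlgCl p := IsAlgClosed.lift
  have hs : ∀ i, Nonempty (K i →ₐ[ℚ] L) := by
    intro i
    obtain ⟨σ', _⟩ := hlift ι i (IsAlgClosed.lift : K i →ₐ[ℚ] ℂ)
    exact ⟨σ'⟩
  have s : ∀ i, K i →ₐ[ℚ] L := fun i => Classical.choice (hs i)
  have h0 : ∑ i, ∑ τ : K i →ₐ[ℚ] L, (cw a v e₀ i τ : L) * τ (z i) = 0 := by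
    apply e₀.toRingHom.injective
    change e₀ _ = e₀ 0
    rw [sum_cw (a := a) (v := v) c hcs hlift e₀ z hodd, hsum, mul_zero, map_zero]
  obtain ⟨f, hf, hne⟩ := exists_fun_of_relation c hcs s (cw a v e₀)
    (fun i τ => cw_conj hW c hcs e₀ i τ) z hodd h0 i₁ hz
  exact hne (not_generate_of_balanced p K a π v hW hgen ι c hcs e₀ f hf i₁ (s i₁))

/-- **The exact criterion.** -/
theorem generate_iff (p : ℕ) [Fact p.Prime] {I : Type} [Fintype I] (K : I → Type)
    [∀ i, Field (K i)] [∀ i, NumberField (K i)] [∀ i, IsCMField (K i)] (a : I → ℕ)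
    (π : ∀ i, K i) (v : ∀ i, (K i →+* PadicAlgCl p) → ℚ)
    (hW : ∀ i, IsWeil p (a i) (π i) (v i)) :
    PairingsGenerate π (fun i => p ^ a i) ↔ SlopeTraceInjective p K v :=
  ⟨injective_of_generate p K a π v hW, generate_of_injective p K a π v hW⟩

end Pool.Agent.TH5.ST
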