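import Pool.Agent.TH5.ST.KThree

/-!
# Linear independence of the odd parts and intersections of the fields
-/

set_option autoImplicit false
set_option linter.unusedSectionVars false

namespace Pool.Agent.TH5.ST

open NumberField NumberField.IsCMField Pool.Agent.H485R3 Pool.Agent.H485R3.Hodge
  Pool.Agent.H925R2 Pool.Agent.H485R3.Exact

theorem exists_image_of_normal {F K L : Type} [Field F] [Field K] [Algebra F K] [Normal F K]
    [Field L] [Algebra F L] (s : K →ₐ[F] L) (u : L ≃ₐ[F] L) (z : K) :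
    ∃ w : K, s w = u (s z) := by
  have hN : Normal F s.fieldRange := Normal.of_algEquiv (AlgEquiv.ofInjectiveField s)
  have h3 : ((u : L →ₐ[F] L).comp s.fieldRange.val).fieldRange = s.fieldRange :=
    AlgHom.fieldRange_of_normal _
  have h4 : u (s z) ∈ ((u : L →ₐ[F] L).comp s.fieldRange.val).fieldRange :=
    ⟨⟨s z, ⟨z, rfl⟩⟩, rfl⟩
  rw [h3] at h4
  exact h4

variable (p : ℕ) [Fact p.Prime] {I : Type} [Fintype I] (K : I → Type)
    [∀ i, Field (K i)] [∀ i, NumberField (K i)] [∀ i, IsCMField (K i)]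
    (x : ∀ i, K i →+* ℚ_[p])

/-- Any two of the fields `x i (K i)` meet in a real field. -/
def MeetReal : Prop :=
  ∀ i₁ i₂, i₁ ≠ i₂ → ∀ (y₁ : K i₁) (y₂ : K i₂), x i₁ y₁ = x i₂ y₂ → complexConj (K i₁) y₁ = y₁

theorem meetReal_of_oddIndependent (h : OddIndependent p K x) : MeetReal p K x := by
  classical
  intro i₁ i₂ hi y₁ y₂ hy
  let z : ∀ i, K i := fun i =>
    if h1 : i = i₁ then h1 ▸ (y₁ - complexConj (K i₁) y₁) else
      if h2 : i = i₂ then h2 ▸ (complexConj (K i₂) y₂ - y₂) else 0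
  have hz₁ : z i₁ = y₁ - complexConj (K i₁) y₁ := by simp [z]
  have hz₂ : z i₂ = complexConj (K i₂) y₂ - y₂ := by simp [z, hi.symm]
  have hz₀ : ∀ i, i ≠ i₁ → i ≠ i₂ → z i = 0 := by
    intro i h1 h2
    simp [z, h1, h2]
  have h0 := h z (by
    intro i
    by_cases h1 : i = i₁
    · subst h1
      rw [hz₁, map_sub, complexConj_apply_apply]
      ring
    · by_cases h2 : i = i₂
      · subst h2
        rw [hz₂, map_sub, complexConj_apply_apply]
        ring
      · rw [hz₀ i h1 h2, map_zero, neg_zero]) (by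
    rw [← Finset.sum_subset (Finset.subset_univ {i₁, i₂}), Finset.sum_pair hi, hz₁, hz₂,
      map_sub, map_sub, hy, conj_compat p K x i₁ i₂ y₁ y₂ hy]
    · ring
    · intro i _ h1
      have h2 : i ≠ i₁ := fun h4 => h1 (by rw [h4]; exact Finset.mem_insert_self _ _)
      have h3 : i ≠ i₂ := fun h4 => h1 (by
        rw [h4]; exact Finset.mem_insert_of_mem (Finset.mem_singleton_self _))
      rw [hz₀ i h2 h3, map_zero]) i₁
  rw [hz₁, sub_eq_zero] at h0
  exact h0.symm

theorem oddIndependent_of_galois (hG : ∀ i, IsGalois ℚ (K i)) (h : MeetReal p K x) :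
    OddIndependent p K x := by
  classical
  intro z hz hsum i
  obtain ⟨L, _, _, _, _, _, ι, c, hc, hcs, hlift⟩ := exists_common_conj K
  let e₀ : L →ₐ[ℚ] PadicAlgCl p := IsAlgClosed.lift
  choose s hs using fun i => hlift e₀ i
    (((algebraMap ℚ_[p] (PadicAlgCl p)).comp (x i)).toRatAlgHom)
  have hsx : ∀ i z, e₀ (s i z) = algebraMap ℚ_[p] (PadicAlgCl p) (x i z) := fun i z =>
    DFunLike.congr_fun (hs i) z
  have hsumL : ∑ j, s j (z j) = 0 := by
    apply e₀.toRingHom.injective
    change e₀ (∑ j, s j (z j)) = e₀ 0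
    rw [map_sum, map_zero]
    simp only [hsx]
    rw [← map_sum, hsum, map_zero]
  let H : Subgroup (L ≃ₐ[ℚ] L) := (s i).fieldRange.fixingSubgroup
  have hfix : ∀ (u : H) (y : K i), u.1 (s i y) = s i y := by
    intro u y
    exact (IntermediateField.mem_fixingSubgroup_iff _ _).1 u.2 (s i y) ⟨y, rfl⟩
  -- the averages
  have havg : ∀ j, j ≠ i → ∑ u : H, u.1 (s j (z j)) = 0 := by
    intro j hj
    have h1 : ∑ u : H, u.1 (s j (z j)) ∈ (s i).fieldRange := by
      rw [← IsGalois.fixedField_fixingSubgroup (s i).fieldRange]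
      rw [IntermediateField.mem_fixedField_iff]
      intro g hg
      rw [map_sum]
      refine Fintype.sum_equiv (Equiv.mulLeft (⟨g, hg⟩ : H)) _ _ fun u => ?_
      rfl
    have h2 : ∀ u : L ≃ₐ[ℚ] L, ∃ w : K j, s j w = u (s j (z j)) := by
      intro u
      exact exists_image_of_normal (s j) u (z j)
    choose w hw using h2
    obtain ⟨y₁, hy₁⟩ := h1
    have hy₁' : s i y₁ = ∑ u : H, u.1 (s j (z j)) := hy₁
    let y₂ : K j := ∑ u : H, w u.1
    have hy₂ : s j y₂ = ∑ u : H, u.1 (s j (z j)) := by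
      rw [map_sum]
      exact Finset.sum_congr rfl fun u _ => hw u.1
    have h5 : x i y₁ = x j y₂ := by
      apply (algebraMap ℚ_[p] (PadicAlgCl p)).injective
      rw [← hsx, ← hsx, hy₁', hy₂]
    have h6 := h i j hj.symm y₁ y₂ h5
    have h7 : c (s i y₁) = - s i y₁ := by
      rw [hy₁', map_sum, ← Finset.sum_neg_distrib]
      refine Finset.sum_congr rfl fun u _ => ?_
      have h8 : c (u.1 (s j (z j))) = act u.1 (s j) (complexConj (K j) (z j)) :=
        hcs j (act u.1 (s j)) (z j)
      rw [h8, hz, map_neg]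
      rfl
    rw [hcs, h6] at h7
    rw [← hy₁']
    have h8 : (2 : L) * s i y₁ = 0 := by
      rw [two_mul]
      nth_rewrite 1 [h7]
      rw [neg_add_cancel]
    exact (mul_eq_zero.1 h8).resolve_left two_ne_zero
  have h1 : ∑ u : H, u.1 (∑ j, s j (z j)) = 0 := by
    rw [hsumL]
    simp
  simp only [map_sum] at h1
  rw [Finset.sum_comm, Finset.sum_eq_single i] at h1
  · simp only [hfix] at h1
    rw [Finset.sum_const, nsmul_eq_mul] at h1
    have h2 : ((Finset.univ : Finset H).card : L) ≠ 0 := by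
      rw [Finset.card_univ]
      exact_mod_cast Fintype.card_ne_zero
    exact (map_eq_zero (s i)).1 ((mul_eq_zero.1 h1).resolve_left h2)
  · intro j _ hj
    exact havg j hj
  · intro h2
    exact absurd (Finset.mem_univ i) h2

theorem oddIndependent_of_two (hI : Fintype.card I = 2) (h : MeetReal p K x) :
    OddIndependent p K x := by
  classical
  obtain ⟨i₁, i₂, hi, hu⟩ := Finset.card_eq_two.1 (Finset.card_univ.trans hI)
  have hI' : ∀ i, i = i₁ ∨ i = i₂ := by
    intro i
    have h1 : i ∈ (Finset.univ : Finset I) := Finset.mem_univ i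
    rw [hu] at h1
    simpa using h1
  exact (oddIndependent_pair p K x i₁ i₂ hi hI').2 (h i₁ i₂ hi)

end Pool.Agent.TH5.ST
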