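import Pool.Agent.TH5.ST.Exotic

/-!
# The slope trace for Weil numbers of K3 type
-/

set_option autoImplicit false
set_option linter.unusedSectionVars false

namespace Pool.Agent.TH5.ST

open NumberField NumberField.IsCMField Pool.Agent.H485R3 Pool.Agent.H485R3.Hodge
  Pool.Agent.H925R2 Pool.Agent.H485R3.Exact

section

variable {p : ℕ} [Fact p.Prime] {a : ℕ} {K : Type} [Field K] [NumberField K] [IsCMField K]
  {π : K} {v : (K →+* PadicAlgCl p) → ℚ}

/-- The sum of the values of all embeddings of an odd element vanishes. -/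
theorem sum_emb_odd (p : ℕ) [Fact p.Prime] (z : K) (hz : complexConj K z = - z) :
    ∑ τ : K →+* PadicAlgCl p, τ z = 0 := by
  have h1 : ∑ τ : K →+* PadicAlgCl p, τ z = - ∑ τ : K →+* PadicAlgCl p, τ z := by
    rw [← Finset.sum_neg_distrib]
    have hcc : Function.Involutive (fun τ : K →+* PadicAlgCl p =>
        τ.comp (complexConj K : K →+* K)) := by
      intro τ
      ext y
      change τ (complexConj K (complexConj K y)) = τ y
      rw [complexConj_apply_apply]
    refine Fintype.sum_equiv hcc.toPerm _ _ fun τ => ?_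
    change τ z = - (τ (complexConj K z))
    rw [hz, map_neg, neg_neg]
  have h2 : (2 : PadicAlgCl p) * ∑ τ : K →+* PadicAlgCl p, τ z = 0 := by
    rw [two_mul]
    nth_rewrite 1 [h1]
    rw [neg_add_cancel]
  exact (mul_eq_zero.1 h2).resolve_left two_ne_zero

theorem IsWeil.slope_trace (h : IsWeil p a π v) (x : K →+* ℚ_[p]) (hx : IsK3Type p a x π) :
    ∃ m : ℚ, m ≠ 0 ∧ ∀ z : K, complexConj K z = - z →
      ∑ τ : K →+* PadicAlgCl p, (v τ : PadicAlgCl p) * τ z =
        (m : PadicAlgCl p) * algebraMap ℚ_[p] (PadicAlgCl p) (x z) := by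
  classical
  have hp : 1 < (p : ℝ) := by exact_mod_cast (Fact.out : p.Prime).one_lt
  have hp0 : 0 < (p : ℝ) := by linarith
  let x' : K →+* PadicAlgCl p := (algebraMap ℚ_[p] (PadicAlgCl p)).comp x
  let x'' : K →+* PadicAlgCl p := x'.comp (complexConj K : K →+* K)
  have hsq : ∀ τ : K →+* PadicAlgCl p, ‖τ π‖ ^ 2 = (p : ℝ) ^ (-(2 * v τ : ℝ)) := by
    intro τ
    rw [h.norm_eq, ← Real.rpow_natCast, ← Real.rpow_mul hp0.le]
    congr 1
    push_cast
    ring
  have hinv : ((p : ℝ) ^ a)⁻¹ = (p : ℝ) ^ (-(a : ℝ)) := by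
    rw [Real.rpow_neg hp0.le, Real.rpow_natCast]
  have hother : ∀ τ : K →+* PadicAlgCl p, τ ≠ x' → τ ≠ x'' → 2 * v τ - a = 0 := by
    intro τ h1 h2
    have h3 := hx.2.2.2 τ h1 (by
      intro h4
      apply h2
      ext y
      have h5 := DFunLike.congr_fun h4 (complexConj K y)
      change τ (complexConj K (complexConj K y)) = x' (complexConj K y) at h5
      rw [complexConj_apply_apply] at h5
      exact h5)
    rw [hsq, hinv] at h3
    have h4 := (Real.rpow_right_inj hp0 hp.ne').1 h3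
    have h5 : ((2 * v τ - a : ℚ) : ℝ) = 0 := by
      push_cast
      linarith
    exact_mod_cast h5
  have hx' : 2 * v x' - a < 0 := by
    have h1 := hx.2.2.1
    have h2 : ‖x π‖ = ‖x' π‖ := by
      change _ = ‖algebraMap ℚ_[p] (PadicAlgCl p) (x π)‖
      rw [PadicAlgCl.norm_extends]
    rw [h2, hsq, hinv] at h1
    have h3 := (Real.rpow_lt_rpow_left_iff hp).1 h1
    have h5 : ((2 * v x' - a : ℚ) : ℝ) < 0 := by
      push_cast
      linarith
    exact_mod_cast h5
  have hconj : v x' + v x'' = a := h.add_conj x' x'' fun z => rfl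
  have hne : x' ≠ x'' := by
    intro h1
    rw [← h1] at hconj
    linarith
  refine ⟨2 * v x' - a, hx'.ne, fun z hz => ?_⟩
  have h1 : ∑ τ : K →+* PadicAlgCl p, (v τ : PadicAlgCl p) * τ z =
      ∑ τ : K →+* PadicAlgCl p, (((2 * v τ - a) / 2 : ℚ) : PadicAlgCl p) * τ z := by
    have h2 : ∀ τ : K →+* PadicAlgCl p, (v τ : PadicAlgCl p) * τ z =
        (((2 * v τ - a) / 2 : ℚ) : PadicAlgCl p) * τ z + ((a / 2 : ℚ) : PadicAlgCl p) * τ z := by
      intro τ
      push_cast
      ring
    simp only [h2]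
    rw [Finset.sum_add_distrib, ← Finset.mul_sum, sum_emb_odd p z hz, mul_zero, add_zero]
  rw [h1, ← Finset.sum_subset (Finset.subset_univ {x', x''}), Finset.sum_pair hne]
  · have h3 : x'' z = - x' z := by
      change x' (complexConj K z) = _
      rw [hz, map_neg]
    rw [h3]
    have h4 : (2 * v x'' - a) = - (2 * v x' - a) := by linarith
    rw [h4]
    change _ = _ * x' z
    push_cast
    ring
  · intro τ _ hτ
    have h3 : τ ≠ x' := fun h4 => hτ (by rw [h4]; exact Finset.mem_insert_self _ _)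
    have h4 : τ ≠ x'' := fun h4 => hτ (by
      rw [h4]; exact Finset.mem_insert_of_mem (Finset.mem_singleton_self _))
    rw [hother τ h3 h4]
    simp

end

/-- The spaces of odd elements of the fields `K i` are linearly independent over `ℚ` in `ℚ_p`. -/
def OddIndependent (p : ℕ) [Fact p.Prime] {I : Type} [Fintype I] (K : I → Type)
    [∀ i, Field (K i)] [∀ i, NumberField (K i)] [∀ i, IsCMField (K i)]
    (x : ∀ i, K i →+* ℚ_[p]) : Prop :=
  ∀ z : ∀ i, K i, (∀ i, complexConj (K i) (z i) = - z i) → ∑ i, x i (z i) = 0 → ∀ i, z i = 0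

section

variable (p : ℕ) [Fact p.Prime] {I : Type} [Fintype I] (K : I → Type)
    [∀ i, Field (K i)] [∀ i, NumberField (K i)] [∀ i, IsCMField (K i)] (a : I → ℕ)
    (π : ∀ i, K i) (v : ∀ i, (K i →+* PadicAlgCl p) → ℚ)
    (hW : ∀ i, IsWeil p (a i) (π i) (v i)) (x : ∀ i, K i →+* ℚ_[p])
    (hx : ∀ i, IsK3Type p (a i) (x i) (π i))

include hW hx in
theorem slopeTraceInjective_iff : SlopeTraceInjective p K v ↔ OddIndependent p K x := by
  choose m hm0 hm using fun i => (hW i).slope_trace (x i) (hx i)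
  have hmz : ∀ (i : I) (q : ℚ) (z : K i), complexConj (K i) z = - z →
      complexConj (K i) ((q : K i) * z) = - ((q : K i) * z) := by
    intro i q z hz
    rw [map_mul, map_ratCast, hz]
    ring
  constructor
  · intro h z hz hsum
    have h1 := h (fun i => (((m i)⁻¹ : ℚ) : K i) * z i) (fun i => hmz i _ _ (hz i)) (by
      have h2 : ∀ i, ∑ τ : K i →+* PadicAlgCl p, (v i τ : PadicAlgCl p) *
          τ ((((m i)⁻¹ : ℚ) : K i) * z i) = algebraMap ℚ_[p] (PadicAlgCl p) (x i (z i)) := by
        intro i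
        rw [hm i _ (hmz i _ _ (hz i)), map_mul, map_mul, map_ratCast, map_ratCast, ← mul_assoc,
          ← Rat.cast_mul, mul_inv_cancel₀ (hm0 i), Rat.cast_one, one_mul]
      simp only [h2]
      rw [← map_sum, hsum, map_zero])
    intro i
    exact (mul_eq_zero.1 (h1 i)).resolve_left (Rat.cast_ne_zero.2 (inv_ne_zero (hm0 i)))
  · intro h z hz hsum
    have h1 := h (fun i => ((m i : ℚ) : K i) * z i) (fun i => hmz i _ _ (hz i)) (by
      apply (algebraMap ℚ_[p] (PadicAlgCl p)).injective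
      rw [map_sum, map_zero, ← hsum]
      refine Finset.sum_congr rfl fun i _ => ?_
      rw [hm i _ (hz i), map_mul, map_mul, map_ratCast, map_ratCast])
    intro i
    exact (mul_eq_zero.1 (h1 i)).resolve_left (Rat.cast_ne_zero.2 (hm0 i))

/-- Complex conjugation is compatible with the intersection of two CM fields in `ℚ_p`. -/
theorem conj_compat (i₁ i₂ : I) (y₁ : K i₁) (y₂ : K i₂) (h : x i₁ y₁ = x i₂ y₂) :
    x i₁ (complexConj (K i₁) y₁) = x i₂ (complexConj (K i₂) y₂) := by
  obtain ⟨L, _, _, _, _, _, ι, c, hc, hcs, hlift⟩ := exists_common_conj K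
  let e₀ : L →ₐ[ℚ] PadicAlgCl p := IsAlgClosed.lift
  choose s hs using fun i => hlift e₀ i
    (((algebraMap ℚ_[p] (PadicAlgCl p)).comp (x i)).toRatAlgHom)
  have hsx : ∀ i z, e₀ (s i z) = algebraMap ℚ_[p] (PadicAlgCl p) (x i z) := fun i z =>
    DFunLike.congr_fun (hs i) z
  have h1 : s i₁ y₁ = s i₂ y₂ := by
    apply e₀.toRingHom.injective
    change e₀ (s i₁ y₁) = e₀ (s i₂ y₂)
    rw [hsx, hsx, h]
  apply (algebraMap ℚ_[p] (PadicAlgCl p)).injective
  rw [← hsx, ← hsx, ← hcs, ← hcs, h1]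

theorem oddIndependent_pair (i₁ i₂ : I) (hi : i₁ ≠ i₂) (hI : ∀ i, i = i₁ ∨ i = i₂) :
    OddIndependent p K x ↔
      ∀ (y₁ : K i₁) (y₂ : K i₂), x i₁ y₁ = x i₂ y₂ → complexConj (K i₁) y₁ = y₁ := by
  classical
  have hsum : ∀ f : I → ℚ_[p], ∑ i, f i = f i₁ + f i₂ := by
    intro f
    have h1 : (Finset.univ : Finset I) = {i₁, i₂} := by
      ext i
      simp [hI i]
    rw [h1, Finset.sum_pair hi]
  constructor
  · intro h y₁ y₂ hy
    let z : ∀ i, K i := fun i =>
      if h1 : i = i₁ then h1 ▸ (y₁ - complexConj (K i₁) y₁) else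
        if h2 : i = i₂ then h2 ▸ (complexConj (K i₂) y₂ - y₂) else 0
    have hz₁ : z i₁ = y₁ - complexConj (K i₁) y₁ := by simp [z]
    have hz₂ : z i₂ = complexConj (K i₂) y₂ - y₂ := by simp [z, hi.symm]
    have h0 := h z (by
      intro i
      rcases hI i with rfl | rfl
      · rw [hz₁, map_sub, complexConj_apply_apply]
        ring
      · rw [hz₂, map_sub, complexConj_apply_apply]
        ring) (by
      rw [hsum, hz₁, hz₂, map_sub, map_sub, hy, conj_compat p K x i₁ i₂ y₁ y₂ hy]
      ring) i₁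
    rw [hz₁, sub_eq_zero] at h0
    exact h0.symm
  · intro h z hz hs
    rw [hsum] at hs
    have h1 : x i₁ (z i₁) = x i₂ (- z i₂) := by
      rw [map_neg]
      exact eq_neg_of_add_eq_zero_left hs
    have h2 := h (z i₁) (- z i₂) h1
    have h3 : z i₁ = 0 := by
      rw [hz] at h2
      have h4 : (2 : K i₁) * z i₁ = 0 := by
        rw [two_mul]
        nth_rewrite 1 [← h2]
        rw [neg_add_cancel]
      exact (mul_eq_zero.1 h4).resolve_left two_ne_zero
    have h4 : z i₂ = 0 := by
      rw [h3, map_zero, map_neg] at h1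
      have h5 : x i₂ (z i₂) = 0 := by
        rw [← neg_eq_zero]
        exact h1.symm
      exact (map_eq_zero (x i₂)).1 h5
    intro i
    rcases hI i with rfl | rfl
    · exact h3
    · exact h4

end

end Pool.Agent.TH5.ST
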