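import Pool.Agent.TH5.ST.Split
import Pool.Agent.TH5.ST.Galois

/-!
# Independence of the trace spaces from real intersections within `ℚ_p`
-/

set_option autoImplicit false
set_option linter.unusedSectionVars false

namespace Pool.Agent.TH5.ST

open NumberField NumberField.IsCMField Pool.Agent.H485R3 Pool.Agent.H485R3.Hodge
  Pool.Agent.H925R2 Pool.Agent.H485R3.Exact

theorem norm_galois (p : ℕ) [Fact p.Prime] (g : PadicAlgCl p ≃ₐ[ℚ_[p]] PadicAlgCl p)
    (x : PadicAlgCl p) : ‖g x‖ = ‖x‖ := by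
  rw [← PadicAlgCl.spectralNorm_eq, ← PadicAlgCl.spectralNorm_eq]
  exact (spectralNorm_eq_of_equiv g x).symm

/-- The elements of `ℚ_p` which lie in two different fields `y i (E i)` are real. -/
def MeetRealInQp (p : ℕ) [Fact p.Prime] {I : Type} (E : I → Type) [∀ i, Field (E i)]
    [∀ i, NumberField (E i)] [∀ i, IsCMField (E i)] (y : ∀ i, E i →+* PadicAlgCl p) : Prop :=
  ∀ i₁ i₂, i₁ ≠ i₂ → ∀ (u₁ : E i₁) (u₂ : E i₂) (x : ℚ_[p]),
    y i₁ u₁ = algebraMap ℚ_[p] (PadicAlgCl p) x → y i₂ u₂ = algebraMap ℚ_[p] (PadicAlgCl p) x →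
    complexConj (E i₁) u₁ = u₁

/-- extension of embeddings to a Galois extension -/
theorem exists_factor {K E Ω : Type} [Field K] [NumberField K] [Field E] [NumberField E]
    [IsGalois ℚ E] [Field Ω] [IsAlgClosed Ω] [CharZero Ω] (ρ₀ : K →ₐ[ℚ] E) (Y : E →ₐ[ℚ] Ω)
    (σ : K →ₐ[ℚ] Ω) : ∃ ρ : K →ₐ[ℚ] E, Y.comp ρ = σ := by
  have h1 : ∃ σ' : E →ₐ[ℚ] Ω, σ'.comp ρ₀ = σ := by
    let _ : Algebra K E := ρ₀.toRingHom.toAlgebra
    let _ : Algebra K Ω := σ.toRingHom.toAlgebra
    have _ : IsScalarTower ℚ K E := IsScalarTower.of_algebraMap_eq fun x => (ρ₀.commutes x).symm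
    have _ : IsScalarTower ℚ K Ω := IsScalarTower.of_algebraMap_eq fun x => (σ.commutes x).symm
    have _ : Algebra.IsAlgebraic K E := Algebra.IsAlgebraic.tower_top (K := ℚ) K
    let τ : E →ₐ[K] Ω := IsAlgClosed.lift
    refine ⟨τ.restrictScalars ℚ, ?_⟩
    ext z
    exact τ.commutes z
  obtain ⟨σ', hσ'⟩ := h1
  obtain ⟨u, hu⟩ := exists_gal Y σ'
  refine ⟨(u : E →ₐ[ℚ] E).comp ρ₀, ?_⟩
  rw [← hσ']
  ext z
  exact (hu (ρ₀ z)).symm

/-- ring homomorphisms between CM fields commute with complex conjugation -/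
theorem conj_hom {K E : Type} [Field K] [NumberField K] [IsCMField K] [Field E] [NumberField E]
    [IsCMField E] (ρ : K →ₐ[ℚ] E) (z : K) : complexConj E (ρ z) = ρ (complexConj K z) := by
  let φ : E →+* ℂ := ((IsAlgClosed.lift : E →ₐ[ℚ] ℂ) : E →+* ℂ)
  apply φ.injective
  rw [complexEmbedding_complexConj]
  exact (complexEmbedding_complexConj K (φ.comp (ρ : K →+* E)) z).symm

theorem normal_fixingSubgroup {F K L : Type} [Field F] [Field K] [Algebra F K] [IsGalois F K]
    [Field L] [Algebra F L] [IsGalois F L] (s : K →ₐ[F] L) : s.fieldRange.fixingSubgroup.Normal := by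
  have _ : IsGalois F s.fieldRange := IsGalois.of_algEquiv (AlgEquiv.ofInjectiveField s)
  exact IsGalois.fixingSubgroup_normal_of_isGalois _

section

variable (p : ℕ) [Fact p.Prime] {I : Type} [Fintype I] (E : I → Type) [∀ i, Field (E i)]
    [∀ i, NumberField (E i)] [∀ i, IsCMField (E i)] (y : ∀ i, E i →+* PadicAlgCl p)

theorem zero_of_meetReal (hG : ∀ i, IsGalois ℚ (E i)) (h : MeetRealInQp p E y)
    (w : ∀ i, E i) (hw : ∀ i, complexConj (E i) (w i) = - w i)
    (hx : ∀ i, ∃ x : ℚ_[p], y i (w i) = algebraMap ℚ_[p] (PadicAlgCl p) x)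
    (hsum : ∑ i, y i (w i) = 0) (i : I) : w i = 0 := by
  classical
  obtain ⟨L, _, _, _, _, _, ι, c, hc, hcs, hlift⟩ := exists_common_conj E
  let e₀ : L →ₐ[ℚ] PadicAlgCl p := IsAlgClosed.lift
  choose s hs using fun i => hlift e₀ i (y i).toRatAlgHom
  have hsx : ∀ i z, e₀ (s i z) = y i z := fun i z => DFunLike.congr_fun (hs i) z
  have hsumL : ∑ j, s j (w j) = 0 := by
    apply e₀.toRingHom.injective
    change e₀ (∑ j, s j (w j)) = e₀ 0
    rw [map_sum, map_zero]
    simp only [hsx]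
    exact hsum
  let H : Subgroup (L ≃ₐ[ℚ] L) := (s i).fieldRange.fixingSubgroup
  have hHn : H.Normal := normal_fixingSubgroup (s i)
  have hfix : ∀ (u : H) (y : E i), u.1 (s i y) = s i y := by
    intro u y
    exact (IntermediateField.mem_fixingSubgroup_iff _ _).1 u.2 (s i y) ⟨y, rfl⟩
  -- the averages
  have havg : ∀ j, j ≠ i → ∑ u : H, u.1 (s j (w j)) = 0 := by
    intro j hj
    have h1 : ∑ u : H, u.1 (s j (w j)) ∈ (s i).fieldRange := by
      rw [← IsGalois.fixedField_fixingSubgroup (s i).fieldRange]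
      rw [IntermediateField.mem_fixedField_iff]
      intro g hg
      rw [map_sum]
      refine Fintype.sum_equiv (Equiv.mulLeft (⟨g, hg⟩ : H)) _ _ fun u => ?_
      rfl
    have h2 : ∀ u : L ≃ₐ[ℚ] L, ∃ z : E j, s j z = u (s j (w j)) := by
      intro u
      exact exists_image_of_normal (s j) u (w j)
    choose z hz using h2
    obtain ⟨y₁, hy₁⟩ := h1
    have hy₁' : s i y₁ = ∑ u : H, u.1 (s j (w j)) := hy₁
    let y₂ : E j := ∑ u : H, z u.1
    have hy₂ : s j y₂ = ∑ u : H, u.1 (s j (w j)) := by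
      rw [map_sum]
      exact Finset.sum_congr rfl fun u _ => hz u.1
    -- the average lies in `ℚ_p`
    have hQp : ∃ x : ℚ_[p], e₀ (∑ u : H, u.1 (s j (w j))) =
        algebraMap ℚ_[p] (PadicAlgCl p) x := by
      have h3 : e₀ (∑ u : H, u.1 (s j (w j))) ∈
          (⊥ : IntermediateField ℚ_[p] (PadicAlgCl p)) := by
        rw [InfiniteGalois.mem_bot_iff_fixed]
        intro g
        obtain ⟨gL, hgL⟩ := exists_gal e₀
          (((g.restrictScalars ℚ : PadicAlgCl p ≃ₐ[ℚ] PadicAlgCl p) :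
            PadicAlgCl p →ₐ[ℚ] PadicAlgCl p).comp e₀)
        have hgL' : ∀ z, g (e₀ z) = e₀ (gL z) := hgL
        rw [hgL']
        congr 1
        rw [map_sum]
        have h4 : gL (s j (w j)) = s j (w j) := by
          apply e₀.toRingHom.injective
          change e₀ (gL (s j (w j))) = e₀ (s j (w j))
          rw [← hgL', hsx]
          obtain ⟨x, hxj⟩ := hx j
          rw [hxj, AlgEquiv.commutes]
        refine Fintype.sum_equiv (MulAut.conjNormal gL : H ≃* H).toEquiv _ _ fun u => ?_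
        change gL (u.1 (s j (w j))) = (MulAut.conjNormal gL u : H).1 (s j (w j))
        rw [MulAut.conjNormal_apply]
        change gL (u.1 (s j (w j))) = gL (u.1 (gL⁻¹ (s j (w j))))
        have h5 : gL⁻¹ (s j (w j)) = s j (w j) := by
          apply gL.injective
          change gL (gL.symm (s j (w j))) = _
          rw [AlgEquiv.apply_symm_apply, h4]
        rw [h5]
      obtain ⟨x, hx'⟩ := IntermediateField.mem_bot.1 h3
      exact ⟨x, hx'.symm⟩
    obtain ⟨x, hxx⟩ := hQp
    have h6 := h i j hj.symm y₁ y₂ x (by rw [← hsx, hy₁', hxx]) (by rw [← hsx, hy₂, hxx])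
    have h7 : c (s i y₁) = - s i y₁ := by
      rw [hy₁', map_sum, ← Finset.sum_neg_distrib]
      refine Finset.sum_congr rfl fun u _ => ?_
      have h8 : c (u.1 (s j (w j))) = act u.1 (s j) (complexConj (E j) (w j)) :=
        hcs j (act u.1 (s j)) (w j)
      rw [h8, hw, map_neg]
      rfl
    rw [hcs, h6] at h7
    rw [← hy₁']
    have h8 : (2 : L) * s i y₁ = 0 := by
      rw [two_mul]
      nth_rewrite 1 [h7]
      rw [neg_add_cancel]
    exact (mul_eq_zero.1 h8).resolve_left two_ne_zero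
  have h1 : ∑ u : H, u.1 (∑ j, s j (w j)) = 0 := by
    rw [hsumL]
    simp
  simp only [map_sum] at h1
  rw [Finset.sum_comm, Finset.sum_eq_single i] at h1
  · simp only [hfix] at h1
    rw [Finset.sum_const, nsmul_eq_mul] at h1
    have h2 : ((Finset.univ : Finset H).card : L) ≠ 0 := by
      rw [Finset.card_univ]
      exact_mod_cast Fintype.card_ne_zero
    exact (map_eq_zero (s i)).1 ((mul_eq_zero.1 h1).resolve_left h2)
  · intro j _ hj
    exact havg j hj
  · intro h2
    exact absurd (Finset.mem_univ i) h2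

/-- the odd part of `y i (E i)` -/
noncomputable def oddPart (i : I) : Submodule ℚ (PadicAlgCl p) where
  carrier := {x | ∃ w : E i, complexConj (E i) w = - w ∧ y i w = x}
  add_mem' := by
    rintro _ _ ⟨w, hw, rfl⟩ ⟨w', hw', rfl⟩
    exact ⟨w + w', by rw [map_add, hw, hw']; ring, by rw [map_add]⟩
  zero_mem' := ⟨0, by rw [map_zero, neg_zero], by rw [map_zero]⟩
  smul_mem' := by
    rintro r _ ⟨w, hw, rfl⟩
    refine ⟨(r : E i) * w, ?_, ?_⟩
    · rw [map_mul, hw, map_ratCast]
      ring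
    · rw [map_mul, map_ratCast, Rat.smul_def]

theorem independent_of_meetReal {J : Type} [Fintype J] (K : J → Type) [∀ j, Field (K j)]
    [∀ j, NumberField (K j)] [∀ j, IsCMField (K j)] (a : J → ℕ) (π : ∀ j, K j)
    (v : ∀ j, (K j →+* PadicAlgCl p) → ℚ) (hW : ∀ j, IsWeilIn p (a j) (π j) (v j)) (γ : J → I)
    (hG : ∀ i, IsGalois ℚ (E i)) (hE : ∀ j, Nonempty (K j →+* E (γ j)))
    (h : MeetRealInQp p E y) : TraceSpacesIndependent p K v γ := by
  classical
  have hp : 1 < (p : ℝ) := by exact_mod_cast (Fact.out : p.Prime).one_lt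
  intro x hx hsum
  -- the traces are odd elements of `y i (E i)`
  have hodd : ∀ i, x i ∈ oddPart p E y i := by
    intro i
    obtain ⟨z, hz, hxi⟩ := hx i
    rw [hxi]
    refine Submodule.sum_mem _ fun j hj => ?_
    have hj' : γ j = i := (Finset.mem_filter.1 hj).2
    subst hj'
    refine Submodule.sum_mem _ fun τ _ => ?_
    have h1 : (v j τ : PadicAlgCl p) * τ (z j) = (v j τ) • τ (z j) := by
      rw [Rat.smul_def]
    rw [h1]
    refine Submodule.smul_mem _ _ ?_
    obtain ⟨ρ₀⟩ := hE j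
    obtain ⟨ρ, hρ⟩ := exists_factor ρ₀.toRatAlgHom (y (γ j)).toRatAlgHom τ.toRatAlgHom
    refine ⟨ρ (z j), ?_, DFunLike.congr_fun hρ (z j)⟩
    rw [conj_hom, hz, map_neg]
  -- the traces are in `ℚ_p`
  have hQp : ∀ i, ∃ q : ℚ_[p], x i = algebraMap ℚ_[p] (PadicAlgCl p) q := by
    intro i
    have h3 : x i ∈ (⊥ : IntermediateField ℚ_[p] (PadicAlgCl p)) := by
      rw [InfiniteGalois.mem_bot_iff_fixed]
      intro g
      obtain ⟨z, hz, hxi⟩ := hx i
      rw [hxi, map_sum]
      refine Finset.sum_congr rfl fun j _ => ?_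
      rw [map_sum]
      have hgg : ∀ (g : PadicAlgCl p ≃ₐ[ℚ_[p]] PadicAlgCl p) (τ : K j →+* PadicAlgCl p),
          v j ((g : PadicAlgCl p →+* PadicAlgCl p).comp τ) = v j τ := by
        intro g τ
        have h1 := (hW j).norm_eq ((g : PadicAlgCl p →+* PadicAlgCl p).comp τ)
        have h2 := (hW j).norm_eq τ
        have h4 : ‖((g : PadicAlgCl p →+* PadicAlgCl p).comp τ) (π j)‖ = ‖τ (π j)‖ :=
          norm_galois p g (τ (π j))
        rw [h1, h2] at h4
        have h5 := (Real.rpow_right_inj (by linarith) hp.ne').1 h4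
        have h6 : (v j ((g : PadicAlgCl p →+* PadicAlgCl p).comp τ) : ℝ) = v j τ := by linarith
        exact_mod_cast h6
      refine Fintype.sum_equiv
        ⟨fun τ => (g : PadicAlgCl p →+* PadicAlgCl p).comp τ,
          fun τ => (g.symm : PadicAlgCl p →+* PadicAlgCl p).comp τ, fun τ => ?_, fun τ => ?_⟩ _ _
          fun τ => ?_
      · ext z
        exact g.symm_apply_apply _
      · ext z
        exact g.apply_symm_apply _
      · change g ((v j τ : PadicAlgCl p) * τ (z j)) =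
          (v j ((g : PadicAlgCl p →+* PadicAlgCl p).comp τ) : PadicAlgCl p) * g (τ (z j))
        rw [hgg, map_mul, map_ratCast]
    obtain ⟨q, hq⟩ := IntermediateField.mem_bot.1 h3
    exact ⟨q, hq.symm⟩
  choose w hw hwx using hodd
  have h1 := zero_of_meetReal p E y hG h w hw (fun i => by rw [hwx]; exact hQp i) (by
    simp only [hwx]
    exact hsum)
  intro i
  rw [← hwx, h1, map_zero]

end

end Pool.Agent.TH5.ST
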