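import Pool.Agent.TH5.ST.Defs

/-!
# The slope trace in a common Galois extension
-/

set_option autoImplicit false
set_option linter.unusedSectionVars false

namespace Pool.Agent.TH5.ST

open NumberField NumberField.IsCMField Pool.Agent.H485R3 Pool.Agent.H485R3.Hodge
  Pool.Agent.H925R2 Pool.Agent.H485R3.Exact

/-- A common Galois extension of the fields `K i`, with complex conjugation. -/
theorem exists_common_conj {I : Type} [Finite I] (K : I → Type) [∀ i, Field (K i)]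
    [∀ i, NumberField (K i)] [∀ i, IsCMField (K i)] :
    ∃ (L : Type) (_ : Field L) (_ : CharZero L) (_ : Algebra ℚ L) (_ : FiniteDimensional ℚ L)
      (_ : IsGalois ℚ L) (ι : L →ₐ[ℚ] ℂ) (c : L ≃ₐ[ℚ] L),
      (∀ z, starRingEnd ℂ (ι z) = ι (c z)) ∧
      (∀ (i : I) (τ : K i →ₐ[ℚ] L) (z : K i), c (τ z) = τ (complexConj (K i) z)) ∧
      ∀ {Ω : Type} [Field Ω] [Algebra ℚ Ω] (e : L →ₐ[ℚ] Ω) (i : I) (σ : K i →ₐ[ℚ] Ω),
        ∃ σ' : K i →ₐ[ℚ] L, e.comp σ' = σ := by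
  obtain ⟨L, iF, iA, iD, iG, hlift⟩ := exists_common' K
  have iC : CharZero L := algebraRat.charZero L
  let ι : L →ₐ[ℚ] ℂ := IsAlgClosed.lift
  obtain ⟨c, hc⟩ := exists_conj ι
  refine ⟨L, iF, iC, iA, iD, iG, ι, c, hc, ?_, hlift⟩
  intro i τ z
  apply ι.toRingHom.injective
  change ι (c (τ z)) = (ι.comp τ) (complexConj (K i) z)
  rw [← hc, ← conjEmb_eq]
  rfl

section

variable {p : ℕ} [Fact p.Prime] {I : Type} [Fintype I] {K : I → Type} [∀ i, Field (K i)]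
  [∀ i, NumberField (K i)] [∀ i, IsCMField (K i)] {a : I → ℕ} {π : ∀ i, K i}
  {v : ∀ i, (K i →+* PadicAlgCl p) → ℚ} (hW : ∀ i, IsWeil p (a i) (π i) (v i))
  {L : Type} [Field L] [CharZero L] [Algebra ℚ L] [FiniteDimensional ℚ L] [IsGalois ℚ L]
  (c : L ≃ₐ[ℚ] L)
  (hcs : ∀ (i : I) (τ : K i →ₐ[ℚ] L) (z : K i), c (τ z) = τ (complexConj (K i) z))
  (hlift : ∀ {Ω : Type} [Field Ω] [Algebra ℚ Ω] (e : L →ₐ[ℚ] Ω) (i : I) (σ : K i →ₐ[ℚ] Ω),
        ∃ σ' : K i →ₐ[ℚ] L, e.comp σ' = σ)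
  (e₀ : L →ₐ[ℚ] PadicAlgCl p)

/-- the embedding of `K i` in the closure of `ℚ_p` -/
noncomputable def toP (e₀ : L →ₐ[ℚ] PadicAlgCl p) {i : I} (τ : K i →ₐ[ℚ] L) : K i →+* PadicAlgCl p :=
  (e₀ : L →+* PadicAlgCl p).comp (τ : K i →+* L)

theorem toP_apply {i : I} (τ : K i →ₐ[ℚ] L) (z : K i) : toP e₀ τ z = e₀ (τ z) := rfl

/-- the centred slopes -/
noncomputable def cw (a : I → ℕ) (v : ∀ i, (K i →+* PadicAlgCl p) → ℚ) (e₀ : L →ₐ[ℚ] PadicAlgCl p) (i : I)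
    (τ : K i →ₐ[ℚ] L) : ℚ := 2 * v i (toP e₀ τ) - a i

include hW hcs in
theorem cw_conj (i : I) (τ : K i →ₐ[ℚ] L) : cw a v e₀ i (act c τ) = - cw a v e₀ i τ := by
  have h1 := (hW i).add_conj (toP e₀ τ) (toP e₀ (act c τ)) (by
    intro z
    rw [toP_apply, toP_apply, ← hcs]
    rfl)
  unfold cw
  linarith

include hW in
theorem ldev_cw (i : I) (τ : K i →ₐ[ℚ] L) :
    ldev p (a i) (e₀ (τ (π i))) = - (cw a v e₀ i τ : ℝ) * Real.log p := by
  have h1 := (hW i).ldev_eq (toP e₀ τ)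
  rw [toP_apply] at h1
  rw [h1]
  unfold cw
  push_cast
  ring

include hcs hlift in
theorem sum_cw (z : ∀ i, K i) (hodd : ∀ i, complexConj (K i) (z i) = - z i) :
    e₀ (∑ i, ∑ τ : K i →ₐ[ℚ] L, (cw a v e₀ i τ : L) * τ (z i)) =
      2 * ∑ i, ∑ τ : K i →+* PadicAlgCl p, (v i τ : PadicAlgCl p) * τ (z i) := by
  classical
  have hbij : ∀ i, Function.Bijective (fun τ : K i →ₐ[ℚ] L => toP e₀ τ) := by
    intro i
    constructor
    · intro τ τ' h
      ext z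
      apply e₀.toRingHom.injective
      exact DFunLike.congr_fun h z
    · intro σ
      obtain ⟨σ', hσ'⟩ := hlift e₀ i σ.toRatAlgHom
      refine ⟨σ', ?_⟩
      ext z
      exact DFunLike.congr_fun hσ' z
  have h0 : ∀ i, ∑ τ : K i →ₐ[ℚ] L, τ (z i) = 0 := by
    intro i
    have h1 : ∑ τ : K i →ₐ[ℚ] L, τ (z i) = - ∑ τ : K i →ₐ[ℚ] L, τ (z i) := by
      rw [← Finset.sum_neg_distrib]
      have hcc : ∀ (τ : K i →ₐ[ℚ] L), act c (act c τ) = τ := by
        intro τ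
        ext y
        change c (c (τ y)) = τ y
        rw [hcs, hcs, complexConj_apply_apply]
      refine Fintype.sum_equiv ⟨act c, act c, hcc, hcc⟩ _ _ fun τ => ?_
      change τ (z i) = - (c (τ (z i)))
      rw [hcs, hodd, map_neg, neg_neg]
    have h2 : (2 : L) * ∑ τ : K i →ₐ[ℚ] L, τ (z i) = 0 := by
      rw [two_mul]
      nth_rewrite 1 [h1]
      rw [neg_add_cancel]
    exact (mul_eq_zero.1 h2).resolve_left two_ne_zero
  rw [map_sum, Finset.mul_sum]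
  refine Finset.sum_congr rfl fun i _ => ?_
  have h1 : ∑ τ : K i →ₐ[ℚ] L, (cw a v e₀ i τ : L) * τ (z i) =
      2 * ∑ τ : K i →ₐ[ℚ] L, (v i (toP e₀ τ) : L) * τ (z i) := by
    have h2 : ∀ τ : K i →ₐ[ℚ] L, (cw a v e₀ i τ : L) * τ (z i) =
        2 * ((v i (toP e₀ τ) : L) * τ (z i)) - (a i : L) * τ (z i) := by
      intro τ
      unfold cw
      push_cast
      ring
    simp only [h2]
    rw [Finset.sum_sub_distrib, ← Finset.mul_sum, ← Finset.mul_sum, h0, mul_zero, sub_zero]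
  rw [h1, map_mul, map_ofNat, map_sum]
  congr 1
  refine Fintype.sum_bijective _ (hbij i) _ _ fun τ => ?_
  rw [map_mul, map_ratCast]
  rfl

end

end Pool.Agent.TH5.ST
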