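import Pool.Agent.TH5.ST.CoreSplit
import Pool.Agent.TH5.ST.Transfer

/-!
# Splitting of Tate classes between groups of varieties: definitions and relations
-/

set_option autoImplicit false
set_option linter.unusedSectionVars false

namespace Pool.Agent.TH5.ST

open NumberField NumberField.IsCMField Pool.Agent.H485R3 Pool.Agent.H485R3.Hodge
  Pool.Agent.H925R2 Pool.Agent.H485R3.Exact

/-- `π` is a Weil number in the CM field `K` with `|π| ^ 2 = p ^ a`, and `v τ` is the `p`-adic
valuation of `τ π` (with `v p = 1`) for every embedding `τ` of `K` into the algebraic closure of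
`ℚ_p`.  It is not assumed that `π` generates `K`. -/
structure IsWeilIn (p : ℕ) [Fact p.Prime] (a : ℕ) {K : Type} [Field K] [NumberField K]
    (π : K) (v : (K →+* PadicAlgCl p) → ℚ) : Prop where
  isIntegral : IsIntegral ℤ π
  norm_sq : ∀ φ : K →+* ℂ, ‖φ π‖ ^ 2 = (p : ℝ) ^ a
  norm_eq : ∀ τ : K →+* PadicAlgCl p, ‖τ π‖ = (p : ℝ) ^ (-(v τ : ℝ))

open Classical in
/-- The space of slope traces of the group `i` of indices:
the sums `∑ j ∈ group i, ∑ τ, v j τ * τ (z j)`, `τ` running through the embeddings of `K j` into the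
algebraic closure of `ℚ_p`, for elements `z j` of `K j` with `complexConj (z j) = - z j`. -/
def TraceSpace (p : ℕ) [Fact p.Prime] {I J : Type} [Fintype J] (K : J → Type)
    [∀ j, Field (K j)] [∀ j, NumberField (K j)] [∀ j, IsCMField (K j)]
    (v : ∀ j, (K j →+* PadicAlgCl p) → ℚ) (γ : J → I) (i : I) : Set (PadicAlgCl p) :=
  {x | ∃ z : ∀ j, K j, (∀ j, complexConj (K j) (z j) = - z j) ∧
    x = ∑ j with γ j = i, ∑ τ : K j →+* PadicAlgCl p, (v j τ : PadicAlgCl p) * τ (z j)}

/-- The spaces of slope traces of the groups are linearly independent over `ℚ`. -/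
def TraceSpacesIndependent (p : ℕ) [Fact p.Prime] {I J : Type} [Fintype I] [Fintype J]
    (K : J → Type) [∀ j, Field (K j)] [∀ j, NumberField (K j)] [∀ j, IsCMField (K j)]
    (v : ∀ j, (K j →+* PadicAlgCl p) → ℚ) (γ : J → I) : Prop :=
  ∀ x : I → PadicAlgCl p, (∀ i, x i ∈ TraceSpace p K v γ i) → ∑ i, x i = 0 → ∀ i, x i = 0

section forms

variable {I J Ω : Type} [Field Ω] (V : J → Type) [∀ j, AddCommGroup (V j)]
  [∀ j, Module Ω (V j)] (F : ∀ j, V j →ₗ[Ω] V j) (q : J → ℕ)

/-- A Tate form in variables `v k ∈ V (t k)`, over some finite extension: `φ` is multiplied by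
`c ^ s` if `F ^ s` is applied to all variables, where `c ^ 2` is the product of the `q (t k)`. -/
def IsTateForm {κ : Type} [Fintype κ] (t : κ → J)
    (φ : MultilinearMap Ω (fun k => V (t k)) Ω) : Prop :=
  ∃ s : ℕ, 0 < s ∧ ∃ c : Ω, c ^ 2 = ∏ k, (q (t k) : Ω) ∧
    ∀ v : ∀ k, V (t k), φ (fun k => (F (t k) ^ s) (v k)) = c ^ s * φ v

open Classical in
/-- An external product of Tate forms, one for each group of variables. -/
def IsExternalProductOfTate [Fintype I] (γ : J → I) {n : ℕ} (t : Fin n → J)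
    (ψ : MultilinearMap Ω (fun k => V (t k)) Ω) : Prop :=
  ∃ φ : ∀ i, MultilinearMap Ω (fun k : {k // γ (t k) = i} => V (t k)) Ω,
    (∀ i, IsTateForm V F q (fun k : {k // γ (t k) = i} => t k) (φ i)) ∧
    ∀ v, ψ v = ∏ i, φ i (fun k => v k)

end forms

/-- All Tate forms on Frobenius modules `V j` whose eigenvalues are conjugates of the `π j`, in any
number of variables and over all finite extensions, are combinations of external products of
Tate forms, one for each group. -/
def TateSplits {I J : Type} [Fintype I] {K : J → Type} [∀ j, Field (K j)]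
    (π : ∀ j, K j) (q : J → ℕ) (γ : J → I) : Prop :=
  ∀ {Ω : Type} [Field Ω] [IsAlgClosed Ω] [CharZero Ω] (V : J → Type) [∀ j, AddCommGroup (V j)]
    [∀ j, Module Ω (V j)] [∀ j, FiniteDimensional Ω (V j)] (F : ∀ j, V j →ₗ[Ω] V j),
    (∀ j, Submodule.span Ω {v : V j | ∃ σ : K j →+* Ω, F j v = σ (π j) • v} = ⊤) →
    ∀ {n : ℕ} (t : Fin n → J) (φ : MultilinearMap Ω (fun k => V (t k)) Ω),
      IsTateForm V F q t φ →
      φ ∈ Submodule.span Ω {ψ | IsExternalProductOfTate V F q γ t ψ}

section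

variable {p : ℕ} [Fact p.Prime] {a : ℕ} {K : Type} [Field K] [NumberField K] [IsCMField K]
  {π : K} {v : (K →+* PadicAlgCl p) → ℚ}

theorem IsWeilIn.ne_zero (h : IsWeilIn p a π v) : π ≠ 0 := by
  have hmul := mul_conj_eq p π a h.norm_sq
  have hp0 : (p : K) ≠ 0 := by exact_mod_cast (Fact.out : p.Prime).ne_zero
  rintro rfl
  rw [zero_mul] at hmul
  exact pow_ne_zero _ hp0 hmul.symm

theorem IsWeilIn.ldev_eq (h : IsWeilIn p a π v) (τ : K →+* PadicAlgCl p) :
    ldev p a (τ π) = - (2 * (v τ : ℝ) - a) * Real.log p := by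
  have hp : (0 : ℝ) < p := by exact_mod_cast (Fact.out : p.Prime).pos
  unfold ldev
  rw [h.norm_eq, Real.log_rpow hp]
  ring

theorem IsWeilIn.add_conj (h : IsWeilIn p a π v) (τ τ' : K →+* PadicAlgCl p)
    (hτ : ∀ z, τ' z = τ (complexConj K z)) : v τ + v τ' = a := by
  have hp : 1 < (p : ℝ) := by exact_mod_cast (Fact.out : p.Prime).one_lt
  have hlog : 0 < Real.log p := Real.log_pos hp
  have hmul := mul_conj_eq p π a h.norm_sq
  have h1 : τ π * τ' π = (p : PadicAlgCl p) ^ a := by
    rw [hτ, ← map_mul, hmul, map_pow, map_natCast]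
  have h2 := ldev_conj p a _ _ h1
  rw [h.ldev_eq, h.ldev_eq] at h2
  have h3 : (2 * (v τ' : ℝ) - a) + (2 * (v τ : ℝ) - a) = 0 := by
    have h4 : ((2 * (v τ' : ℝ) - a) + (2 * (v τ : ℝ) - a)) * Real.log p = 0 := by linarith
    exact (mul_eq_zero.1 h4).resolve_right hlog.ne'
  have h4 : ((v τ + v τ' : ℚ) : ℝ) = ((a : ℚ) : ℝ) := by
    push_cast
    linarith
  exact_mod_cast h4

end

section

variable {p : ℕ} [Fact p.Prime] {J : Type} [Fintype J] {K : J → Type} [∀ j, Field (K j)]
  [∀ j, NumberField (K j)] [∀ j, IsCMField (K j)] {a : J → ℕ} {π : ∀ j, K j}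
  {v : ∀ j, (K j →+* PadicAlgCl p) → ℚ} (hW : ∀ j, IsWeilIn p (a j) (π j) (v j))
  {L : Type} [Field L] [CharZero L] [Algebra ℚ L] [FiniteDimensional ℚ L] [IsGalois ℚ L]
  (c : L ≃ₐ[ℚ] L)
  (hcs : ∀ (j : J) (τ : K j →ₐ[ℚ] L) (z : K j), c (τ z) = τ (complexConj (K j) z))
  (hlift : ∀ {Ω : Type} [Field Ω] [Algebra ℚ Ω] (e : L →ₐ[ℚ] Ω) (j : J) (σ : K j →ₐ[ℚ] Ω),
        ∃ σ' : K j →ₐ[ℚ] L, e.comp σ' = σ)
  (e₀ : L →ₐ[ℚ] PadicAlgCl p)

include hW hcs in
theorem cw_conj' (j : J) (τ : K j →ₐ[ℚ] L) : cw a v e₀ j (act c τ) = - cw a v e₀ j τ := by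
  have h1 := (hW j).add_conj (toP e₀ τ) (toP e₀ (act c τ)) (by
    intro z
    rw [toP_apply, toP_apply, ← hcs]
    rfl)
  unfold cw
  linarith

include hW in
theorem ldev_cw' (j : J) (τ : K j →ₐ[ℚ] L) :
    ldev p (a j) (e₀ (τ (π j))) = - (cw a v e₀ j τ : ℝ) * Real.log p := by
  have h1 := (hW j).ldev_eq (toP e₀ τ)
  rw [toP_apply] at h1
  rw [h1]
  unfold cw
  push_cast
  ring

include hcs hlift in
/-- the slope traces over a set of indices, in a common Galois extension -/
theorem sum_cw' (A : Finset J) (z : ∀ j, K j) (hodd : ∀ j, complexConj (K j) (z j) = - z j) :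
    e₀ (∑ j ∈ A, ∑ τ : K j →ₐ[ℚ] L, (cw a v e₀ j τ : L) * τ (z j)) =
      2 * ∑ j ∈ A, ∑ τ : K j →+* PadicAlgCl p, (v j τ : PadicAlgCl p) * τ (z j) := by
  classical
  have hbij : ∀ j, Function.Bijective (fun τ : K j →ₐ[ℚ] L => toP e₀ τ) := by
    intro j
    constructor
    · intro τ τ' h
      ext z
      apply e₀.toRingHom.injective
      exact DFunLike.congr_fun h z
    · intro σ
      obtain ⟨σ', hσ'⟩ := hlift e₀ j σ.toRatAlgHom
      refine ⟨σ', ?_⟩
      ext z
      exact DFunLike.congr_fun hσ' z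
  have h0 : ∀ j, ∑ τ : K j →ₐ[ℚ] L, τ (z j) = 0 := by
    intro j
    have h1 : ∑ τ : K j →ₐ[ℚ] L, τ (z j) = - ∑ τ : K j →ₐ[ℚ] L, τ (z j) := by
      rw [← Finset.sum_neg_distrib]
      have hcc : ∀ (τ : K j →ₐ[ℚ] L), act c (act c τ) = τ := by
        intro τ
        ext y
        change c (c (τ y)) = τ y
        rw [hcs, hcs, complexConj_apply_apply]
      refine Fintype.sum_equiv ⟨act c, act c, hcc, hcc⟩ _ _ fun τ => ?_
      change τ (z j) = - (c (τ (z j)))
      rw [hcs, hodd, map_neg, neg_neg]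
    have h2 : (2 : L) * ∑ τ : K j →ₐ[ℚ] L, τ (z j) = 0 := by
      rw [two_mul]
      nth_rewrite 1 [h1]
      rw [neg_add_cancel]
    exact (mul_eq_zero.1 h2).resolve_left two_ne_zero
  rw [map_sum, Finset.mul_sum]
  refine Finset.sum_congr rfl fun j _ => ?_
  have h1 : ∑ τ : K j →ₐ[ℚ] L, (cw a v e₀ j τ : L) * τ (z j) =
      2 * ∑ τ : K j →ₐ[ℚ] L, (v j (toP e₀ τ) : L) * τ (z j) := by
    have h2 : ∀ τ : K j →ₐ[ℚ] L, (cw a v e₀ j τ : L) * τ (z j) =
        2 * ((v j (toP e₀ τ) : L) * τ (z j)) - (a j : L) * τ (z j) := by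
      intro τ
      unfold cw
      push_cast
      ring
    simp only [h2]
    rw [Finset.sum_sub_distrib, ← Finset.mul_sum, ← Finset.mul_sum, h0, mul_zero, sub_zero]
  rw [h1, map_mul, map_ofNat, map_sum]
  congr 1
  refine Fintype.sum_bijective _ (hbij j) _ _ fun τ => ?_
  rw [map_mul, map_ratCast]
  rfl

include hW in
/-- A multiplicative relation up to roots of unity is balanced at all places over `p`. -/
theorem balanced_of_rel {κ : Type} [Fintype κ] (t : κ → J) (W : ∀ k, K (t k) →ₐ[ℚ] L)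
    (r : ℕ) (hr : 0 < r)
    (hrel : (∏ k, W k (π (t k))) ^ (2 * r) = (∏ k, ((p : L) ^ a (t k))) ^ r)
    (g : L ≃ₐ[ℚ] L) : ∑ k, cw a v e₀ (t k) (act g (W k)) = 0 := by
  have hp : p.Prime := Fact.out
  have hppos : (0 : ℝ) < p := by exact_mod_cast hp.pos
  have hlog : 0 < Real.log p := Real.log_pos (by exact_mod_cast hp.one_lt)
  have h1 : ∑ k, ldev p (a (t k)) (e₀ (act g (W k) (π (t k)))) = 0 := by
    have h2 := congrArg (fun x => Real.log ‖e₀ (g x)‖) hrel
    simp only [map_pow, map_prod, map_natCast, norm_pow, norm_prod] at h2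
    rw [Real.log_pow, Real.log_pow, Real.log_prod, Real.log_prod] at h2
    · have h3 : ∀ k, Real.log (‖(p : PadicAlgCl p)‖ ^ a (t k)) = - (a (t k) * Real.log p) := by
        intro k
        rw [Real.log_pow, norm_p_padic, Real.log_inv]
        ring
      simp only [h3] at h2
      rw [Finset.sum_neg_distrib] at h2
      unfold ldev
      rw [Finset.sum_add_distrib, ← Finset.mul_sum]
      have h4 : (r : ℝ) ≠ 0 := by exact_mod_cast hr.ne'
      have h5 : (r : ℝ) * (2 * ∑ k, Real.log ‖e₀ (act g (W k) (π (t k)))‖ +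
          ∑ k, (a (t k) : ℝ) * Real.log p) = 0 := by
        have h6 : ∀ k, Real.log ‖e₀ (act g (W k) (π (t k)))‖ =
            Real.log ‖e₀ (g (W k (π (t k))))‖ := fun k => rfl
        simp only [h6]
        push_cast at h2
        linarith
      exact (mul_eq_zero.1 h5).resolve_left h4
    · intro k _
      rw [norm_p_padic]
      positivity
    · intro k _
      exact norm_ne_zero_iff.2 ((map_ne_zero e₀).2 ((map_ne_zero g).2
        ((map_ne_zero (W k)).2 (hW _).ne_zero)))
  simp only [ldev_cw' hW e₀] at h1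
  rw [← Finset.sum_mul, Finset.sum_neg_distrib] at h1
  have h2 := (mul_eq_zero.1 h1).resolve_right hlog.ne'
  have h3 : ((∑ k, cw a v e₀ (t k) (act g (W k)) : ℚ) : ℝ) = 0 := by
    push_cast
    linarith
  exact_mod_cast h3

include hW in
/-- The converse: a relation of slopes at all places over `p` is a multiplicative relation up to
roots of unity. -/
theorem rel_of_balanced {κ : Type} [Fintype κ] (t : κ → J) (W : ∀ k, K (t k) →ₐ[ℚ] L)
    (hbal : ∀ g : L ≃ₐ[ℚ] L, ∑ k, cw a v e₀ (t k) (act g (W k)) = 0) :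
    ∃ r : ℕ, 0 < r ∧
      (∏ k, W k (π (t k))) ^ (2 * r) = (∏ k, ((p : L) ^ a (t k))) ^ r := by
  have hp : p.Prime := Fact.out
  have hppos : (0 : ℝ) < p := by exact_mod_cast hp.pos
  have hlog : 0 < Real.log p := Real.log_pos (by exact_mod_cast hp.one_lt)
  have hπ0 : ∀ j, π j ≠ 0 := fun j => (hW j).ne_zero
  let N : L := ∏ k, W k (π (t k))
  let Q : ℕ := ∏ k, p ^ a (t k)
  have hQ0 : Q ≠ 0 := Finset.prod_ne_zero_iff.2 fun k _ => pow_ne_zero _ hp.ne_zero
  have hN0 : N ≠ 0 := Finset.prod_ne_zero_iff.2 fun k _ => (map_ne_zero _).2 (hπ0 _)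
  have hbal' : ∀ g : L ≃ₐ[ℚ] L, ∑ k, ldev p (a (t k)) (e₀ (act g (W k) (π (t k)))) = 0 := by
    intro g
    simp only [ldev_cw' hW e₀]
    rw [← Finset.sum_mul, Finset.sum_neg_distrib]
    have h3 : ((∑ k, cw a v e₀ (t k) (act g (W k)) : ℚ) : ℝ) = 0 := by
      rw [hbal g, Rat.cast_zero]
    push_cast at h3
    rw [h3]
    ring
  obtain ⟨r, hr, hξ⟩ : ∃ r : ℕ, 0 < r ∧ (N ^ 2 / (Q : L)) ^ r = 1 := by
    apply root_of_unity
    · intro l _ el
      rw [map_div₀, map_pow, map_natCast, norm_div, norm_pow]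
      by_cases hl : l = p
      · subst hl
        obtain ⟨g, hg⟩ := exists_gal e₀ el
        have h1 := hbal' g
        have hNpos : 0 < ‖el N‖ := norm_pos_iff.2 ((map_ne_zero _).2 hN0)
        have hQpos : 0 < ‖(Q : PadicAlgCl l)‖ := norm_pos_iff.2 (by exact_mod_cast hQ0)
        have h2 : Real.log ‖el N‖ = ∑ k, Real.log ‖e₀ (act g (W k) (π (t k)))‖ := by
          rw [← Real.log_prod]
          · simp only [N]
            rw [map_prod, norm_prod]
            congr 1
            exact Finset.prod_congr rfl fun k _ => by rw [hg]; rfl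
          · intro k _
            exact norm_ne_zero_iff.2 ((map_ne_zero _).2 ((map_ne_zero _).2 (hπ0 _)))
        have h3 : Real.log ‖(Q : PadicAlgCl l)‖ = - ∑ k, (a (t k) : ℝ) * Real.log l := by
          simp only [Q]
          push_cast
          rw [norm_prod, Real.log_prod]
          · rw [← Finset.sum_neg_distrib]
            refine Finset.sum_congr rfl fun k _ => ?_
            rw [norm_pow, Real.log_pow, norm_p_padic, Real.log_inv]
            ring
          · intro k _
            rw [norm_pow, norm_p_padic]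
            positivity
        have h4 : Real.log (‖el N‖ ^ 2 / ‖(Q : PadicAlgCl l)‖) = 0 := by
          rw [Real.log_div (by positivity) hQpos.ne', Real.log_pow, h2, h3]
          simp only [ldev] at h1
          rw [Finset.sum_add_distrib, ← Finset.mul_sum] at h1
          push_cast
          linarith
        have h5 : ‖el N‖ ^ 2 / ‖(Q : PadicAlgCl l)‖ = 1 := by
          have h6 : 0 < ‖el N‖ ^ 2 / ‖(Q : PadicAlgCl l)‖ := by positivity
          exact Real.eq_one_of_pos_of_log_eq_zero h6 h4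
        exact h5.le
      · have h1 : ‖el N‖ = 1 := by
          simp only [N]
          rw [map_prod, norm_prod]
          refine Finset.prod_eq_one fun k _ => ?_
          exact norm_eq_one_of_ne p (a (t k)) (π (t k)) (hW _).isIntegral (hW _).norm_sq
            l hl (el.toRingHom.comp (W k).toRingHom)
        have h2 : ‖(Q : PadicAlgCl l)‖ = 1 := by
          simp only [Q]
          push_cast
          rw [norm_prod]
          refine Finset.prod_eq_one fun k _ => ?_
          have h4 : (p : PadicAlgCl l) = algebraMap ℚ_[l] (PadicAlgCl l) (p : ℚ_[l]) := by simp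
          rw [norm_pow, h4, PadicAlgCl.norm_extends]
          have h5 : ‖(p : ℚ_[l])‖ = 1 := by
            rw [Padic.norm_natCast_eq_one_iff]
            exact (Nat.coprime_primes (Fact.out : l.Prime) (Fact.out : p.Prime)).2 hl
          rw [h5, one_pow]
        rw [h1, h2]
        norm_num
    · intro φ
      rw [map_div₀, map_pow, map_natCast, norm_div, norm_pow]
      have h1 : ‖φ N‖ ^ 2 = Q := by
        simp only [N, Q]
        rw [map_prod, norm_prod, ← Finset.prod_pow]
        push_cast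
        refine Finset.prod_congr rfl fun k _ => ?_
        exact (hW (t k)).norm_sq (φ.toRingHom.comp (W k).toRingHom)
      rw [h1, Complex.norm_natCast, div_self]
      exact_mod_cast hQ0
  refine ⟨r, hr, ?_⟩
  have hQL : (Q : L) ≠ 0 := by exact_mod_cast hQ0
  rw [div_pow, ← pow_mul, div_eq_one_iff_eq (pow_ne_zero _ hQL)] at hξ
  have hQ' : (Q : L) = ∏ k, ((p : L) ^ a (t k)) := by
    simp only [Q]
    push_cast
    rfl
  rw [← hQ']
  exact hξ

end

end Pool.Agent.TH5.ST
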